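import Pool.Agent.NH51.BF.Lower

/-!
# Identities between split binary forms: the number of all members
-/

set_option autoImplicit false

namespace Pool.Agent.NH51.BF

open Finset

variable {D : ℕ}

theorem sum_inv_sq (n : ℕ) : ∑ g ∈ Icc 2 (n + 2), 1 / (g : ℝ) ^ 2 ≤ 3 / 4 - 1 / ((n : ℝ) + 2) := by
  induction n with
  | zero => norm_num
  | succ n ih =>
    rw [show n + 1 + 2 = (n + 2) + 1 from rfl, sum_Icc_succ_top (by omega)]
    push_cast
    have h1 : 1 / ((n : ℝ) + 2 + 1) ^ 2 ≤ 1 / ((n : ℝ) + 2) - 1 / ((n : ℝ) + 1 + 2) := by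
      rw [div_sub_div _ _ (by positivity) (by positivity), div_le_div_iff₀ (by positivity)
        (by positivity)]
      have : (0 : ℝ) ≤ n := Nat.cast_nonneg n
      nlinarith
    linarith

theorem sum_inv_sq' (N : ℕ) : ∑ g ∈ Icc 2 N, 1 / (g : ℝ) ^ 2 ≤ 3 / 4 := by
  rcases lt_or_ge N 2 with h | h
  · rw [Icc_eq_empty (by omega), sum_empty]; norm_num
  · obtain ⟨n, rfl⟩ := Nat.exists_eq_add_of_le' h
    have h1 := sum_inv_sq n
    have h2 : 0 ≤ 1 / ((n : ℝ) + 2) := by positivity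
    linarith

/-- the coprime pairs -/
def Cop (N : ℕ) : Finset (ℕ × ℕ) :=
  (Icc 1 N ×ˢ Icc 1 N).filter fun t => Nat.Coprime t.1 t.2

/-- there are many coprime pairs -/
theorem card_cop (N : ℕ) : (N : ℝ) ^ 2 / 4 ≤ ((Cop N).card : ℝ) := by
  classical
  set U : Finset (ℕ × ℕ) := (Icc 2 N).biUnion fun g =>
    (Icc 1 (N / g) ×ˢ Icc 1 (N / g)).image fun t => (g * t.1, g * t.2) with hU
  have hsub : Icc 1 N ×ˢ Icc 1 N ⊆ Cop N ∪ U := by
    rintro ⟨a, b⟩ hab
    have hab' := hab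
    rw [mem_product, mem_Icc, mem_Icc] at hab
    simp only at hab
    obtain ⟨⟨ha, haN⟩, hb, hbN⟩ := hab
    rw [mem_union]
    by_cases hg : Nat.Coprime a b
    · exact Or.inl (mem_filter.2 ⟨hab', hg⟩)
    · right
      have hg0 : 0 < Nat.gcd a b := Nat.gcd_pos_of_pos_left b ha
      have hg2 : 2 ≤ Nat.gcd a b := by
        have : Nat.gcd a b ≠ 1 := hg
        omega
      obtain ⟨u, hu⟩ := Nat.gcd_dvd_left a b
      obtain ⟨v, hv⟩ := Nat.gcd_dvd_right a b
      have hgN : Nat.gcd a b ≤ N := (Nat.le_of_dvd ha (Nat.gcd_dvd_left a b)).trans haN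
      have hu1 : 1 ≤ u := by
        rcases Nat.eq_zero_or_pos u with h0 | h0
        · rw [h0, mul_zero] at hu; omega
        · exact h0
      have hv1 : 1 ≤ v := by
        rcases Nat.eq_zero_or_pos v with h0 | h0
        · rw [h0, mul_zero] at hv; omega
        · exact h0
      rw [hU, mem_biUnion]
      refine ⟨Nat.gcd a b, mem_Icc.2 ⟨hg2, hgN⟩, mem_image.2 ⟨(u, v), ?_, ?_⟩⟩
      · rw [mem_product, mem_Icc, mem_Icc]
        refine ⟨⟨hu1, ?_⟩, hv1, ?_⟩
        · rw [Nat.le_div_iff_mul_le hg0, mul_comm, ← hu]; exact haN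
        · rw [Nat.le_div_iff_mul_le hg0, mul_comm, ← hv]; exact hbN
      · simp only
        rw [← hu, ← hv]
  have h1 : N * N ≤ (Cop N).card + U.card := by
    have := (card_le_card hsub).trans (card_union_le _ _)
    rw [card_product, Nat.card_Icc, Nat.add_sub_cancel] at this
    exact this
  have h2 : (U.card : ℝ) ≤ (N : ℝ) ^ 2 * (3 / 4) := by
    have h3 : U.card ≤ ∑ g ∈ Icc 2 N, (N / g) * (N / g) := by
      refine card_biUnion_le.trans (sum_le_sum fun g _ => card_image_le.trans ?_)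
      rw [card_product, Nat.card_Icc, Nat.add_sub_cancel]
    calc (U.card : ℝ) ≤ ((∑ g ∈ Icc 2 N, (N / g) * (N / g) : ℕ) : ℝ) := by exact_mod_cast h3
      _ = ∑ g ∈ Icc 2 N, ((N / g : ℕ) : ℝ) * ((N / g : ℕ) : ℝ) := by push_cast; rfl
      _ ≤ ∑ g ∈ Icc 2 N, (N : ℝ) ^ 2 * (1 / (g : ℝ) ^ 2) := by
          refine sum_le_sum fun g hg => ?_
          have h4 : ((N / g : ℕ) : ℝ) ≤ (N : ℝ) / g := Nat.cast_div_le
          calc ((N / g : ℕ) : ℝ) * ((N / g : ℕ) : ℝ) ≤ ((N : ℝ) / g) * ((N : ℝ) / g) := by gcongr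
            _ = _ := by ring
      _ = (N : ℝ) ^ 2 * ∑ g ∈ Icc 2 N, 1 / (g : ℝ) ^ 2 := by rw [mul_sum]
      _ ≤ (N : ℝ) ^ 2 * (3 / 4) := mul_le_mul_of_nonneg_left (sum_inv_sq' N) (by positivity)
  have h5 : (N : ℝ) * N ≤ ((Cop N).card : ℝ) + U.card := by exact_mod_cast h1
  nlinarith

/-- three nonzero integers, one of them the sum of the others, give a member -/
theorem exists_member {F : Fin 3 → ℤ} (h0 : F 0 ≠ 0) (h1 : F 1 ≠ 0) (h2 : F 2 ≠ 0)
    (hs : F 0 + F 1 = F 2) : ∃ (a b c g : ℕ) (σ : Equiv.Perm (Fin 3)), 0 < a ∧ 0 < b ∧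
      Nat.Coprime a b ∧ a + b = c ∧ 1 ≤ g ∧ (F (σ 0)).natAbs = g * a ∧ (F (σ 1)).natAbs = g * b ∧
      (F (σ 2)).natAbs = g * c := by
  have hg : 0 < Int.gcd (F 0) (F 1) := Int.gcd_pos_of_ne_zero_left _ h0
  obtain ⟨g, A, B, hg0, hco, hA, hB⟩ := Int.exists_gcd_one' hg
  have hC : F 2 = (A + B) * g := by rw [← hs, hA, hB]; ring
  have hA0 : A ≠ 0 := by rintro rfl; simp at hA; exact h0 hA
  have hB0 : B ≠ 0 := by rintro rfl; simp at hB; exact h1 hB
  have hC0 : A + B ≠ 0 := by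
    intro h; rw [h] at hC; simp at hC; exact h2 hC
  have nA : (F 0).natAbs = g * A.natAbs := by rw [hA, Int.natAbs_mul, Int.natAbs_natCast, mul_comm]
  have nB : (F 1).natAbs = g * B.natAbs := by rw [hB, Int.natAbs_mul, Int.natAbs_natCast, mul_comm]
  have nC : (F 2).natAbs = g * (A + B).natAbs := by
    rw [hC, Int.natAbs_mul, Int.natAbs_natCast, mul_comm]
  have cAB : Nat.Coprime A.natAbs B.natAbs := hco
  have cAC : Nat.Coprime A.natAbs (A + B).natAbs := by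
    have h1 : IsCoprime A B := Int.isCoprime_iff_gcd_eq_one.2 hco
    have h2 : IsCoprime A (A + B) := by
      have := (IsCoprime.add_mul_left_right_iff (x := A) (y := B) (z := 1)).2 h1
      rwa [mul_one, add_comm] at this
    exact Int.isCoprime_iff_gcd_eq_one.1 h2
  have cBC : Nat.Coprime B.natAbs (A + B).natAbs := by
    have h1 : IsCoprime B A := (Int.isCoprime_iff_gcd_eq_one.2 hco).symm
    have h2 : IsCoprime B (A + B) := by
      have := (IsCoprime.add_mul_left_right_iff (x := B) (y := A) (z := 1)).2 h1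
      rwa [mul_one] at this
    exact Int.isCoprime_iff_gcd_eq_one.1 h2
  have pA : 0 < A.natAbs := Int.natAbs_pos.2 hA0
  have pB : 0 < B.natAbs := Int.natAbs_pos.2 hB0
  have pC : 0 < (A + B).natAbs := Int.natAbs_pos.2 hC0
  have htri : A.natAbs + B.natAbs = (A + B).natAbs ∨
      A.natAbs + (A + B).natAbs = B.natAbs ∨ B.natAbs + (A + B).natAbs = A.natAbs := by
    omega
  rcases htri with h | h | h
  · exact ⟨A.natAbs, B.natAbs, (A + B).natAbs, g, 1, pA, pB, cAB, h, hg0, nA, nB, nC⟩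
  · refine ⟨A.natAbs, (A + B).natAbs, B.natAbs, g, Equiv.swap 1 2, pA, pC, cAC, h, hg0, ?_, ?_, ?_⟩
    · rw [show (Equiv.swap 1 2 : Equiv.Perm (Fin 3)) 0 = 0 by decide]; exact nA
    · rw [show (Equiv.swap 1 2 : Equiv.Perm (Fin 3)) 1 = 2 by decide]; exact nC
    · rw [show (Equiv.swap 1 2 : Equiv.Perm (Fin 3)) 2 = 1 by decide]; exact nB
  · refine ⟨B.natAbs, (A + B).natAbs, A.natAbs, g, finRotate 3, pB, pC, cBC, h, hg0, ?_, ?_, ?_⟩
    · rw [show (finRotate 3 : Equiv.Perm (Fin 3)) 0 = 1 by decide]; exact nB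
    · rw [show (finRotate 3 : Equiv.Perm (Fin 3)) 1 = 2 by decide]; exact nC
    · rw [show (finRotate 3 : Equiv.Perm (Fin 3)) 2 = 0 by decide]; exact nA

theorem F_ne_zero {S : Forms D} {d : ℕ} (h : S.IsIdentity d) {x y : ℤ} (hL : ∀ i, S.L i x y ≠ 0)
    (j : Fin 3) : S.F j x y ≠ 0 := by
  unfold Forms.F
  exact mul_ne_zero (h.ne_zero j) (prod_ne_zero_iff.2 fun i _ => pow_ne_zero _ (hL i))

/-- the coprime pairs at which a linear form vanishes are few -/
theorem zero_few {S : Forms D} {d : ℕ} (h : S.IsIdentity d) (hD : 2 ≤ D) (i : Fin D) (N : ℕ) :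
    ((Cop N).filter fun t => S.L i (t.1 : ℤ) (t.2 : ℤ) = 0).card ≤ 1 := by
  rw [card_le_one]
  rintro ⟨a, b⟩ hab ⟨a', b'⟩ hab'
  rw [mem_filter, Cop, mem_filter, mem_product, mem_Icc, mem_Icc] at hab hab'
  simp only at hab hab'
  obtain ⟨⟨⟨⟨ha, -⟩, hb, -⟩, hco⟩, hL⟩ := hab
  obtain ⟨⟨⟨⟨ha', -⟩, hb', -⟩, hco'⟩, hL'⟩ := hab'
  unfold Forms.L at hL hL'
  have hpq : S.p i ≠ 0 ∨ S.q i ≠ 0 := by
    obtain ⟨j, hj⟩ : ∃ j : Fin D, j ≠ i := by
      haveI : Nontrivial (Fin D) := Fin.nontrivial_iff_two_le.2 hD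
      exact exists_ne i
    have := h.indep i j hj.symm
    by_contra hcon
    push Not at hcon
    rw [hcon.1, hcon.2] at this
    simp at this
  have hcross : (a : ℤ) * b' = a' * b := by
    rcases hpq with hp | hq
    · refine mul_left_cancel₀ hp ?_
      linear_combination (b' : ℤ) * hL - (b : ℤ) * hL'
    · refine mul_left_cancel₀ hq ?_
      linear_combination (a : ℤ) * hL' - (a' : ℤ) * hL
  have hcross' : a * b' = a' * b := by exact_mod_cast hcross
  have h1 : a ∣ a' := by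
    have : a ∣ a' * b := ⟨b', hcross'.symm⟩
    exact hco.dvd_of_dvd_mul_right this
  have h2 : a' ∣ a := by
    have : a' ∣ a * b' := ⟨b, hcross'⟩
    exact hco'.dvd_of_dvd_mul_right this
  have h3 : a = a' := Nat.dvd_antisymm h1 h2
  subst h3
  have h4 : b = b' := (Nat.eq_of_mul_eq_mul_left (by omega) hcross').symm
  rw [h4]

/-- the good pairs -/
theorem card_good {S : Forms D} {d : ℕ} (h : S.IsIdentity d) (hD : 2 ≤ D) (N : ℕ) :
    (N : ℝ) ^ 2 / 4 - D ≤
      (((Cop N).filter fun t => ∀ i, S.L i (t.1 : ℤ) (t.2 : ℤ) ≠ 0).card : ℝ) := by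
  classical
  have h1 : Cop N ⊆ ((Cop N).filter fun t => ∀ i, S.L i (t.1 : ℤ) (t.2 : ℤ) ≠ 0) ∪
      (univ : Finset (Fin D)).biUnion fun i =>
        (Cop N).filter fun t => S.L i (t.1 : ℤ) (t.2 : ℤ) = 0 := by
    intro t ht
    rw [mem_union]
    by_cases hall : ∀ i, S.L i (t.1 : ℤ) (t.2 : ℤ) ≠ 0
    · exact Or.inl (mem_filter.2 ⟨ht, hall⟩)
    · right
      push Not at hall
      obtain ⟨i, hi⟩ := hall
      exact mem_biUnion.2 ⟨i, mem_univ i, mem_filter.2 ⟨ht, hi⟩⟩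
  have h2 := (card_le_card h1).trans (card_union_le _ _)
  have h3 : ((univ : Finset (Fin D)).biUnion fun i =>
      (Cop N).filter fun t => S.L i (t.1 : ℤ) (t.2 : ℤ) = 0).card ≤ D := by
    refine card_biUnion_le.trans ?_
    calc ∑ i : Fin D, ((Cop N).filter fun t => S.L i (t.1 : ℤ) (t.2 : ℤ) = 0).card
        ≤ ∑ _i : Fin D, 1 := sum_le_sum fun i _ => zero_few h hD i N
      _ = D := by rw [sum_const, card_univ, Fintype.card_fin, smul_eq_mul, mul_one]
  have h4 : (Cop N).card ≤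
      ((Cop N).filter fun t => ∀ i, S.L i (t.1 : ℤ) (t.2 : ℤ) ≠ 0).card + D := by omega
  have h5 : ((Cop N).card : ℝ) ≤
      (((Cop N).filter fun t => ∀ i, S.L i (t.1 : ℤ) (t.2 : ℤ) ≠ 0).card : ℝ) + D := by
    exact_mod_cast h4
  have h6 := card_cop N
  linarith

end Pool.Agent.NH51.BF
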