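import Pool.Agent.NH51.BF.Defs

/-!
# The bound of Mason and Stothers for identities between split binary forms
-/

set_option autoImplicit false

open Polynomial UniqueFactorizationMonoid

namespace Pool.Agent.NH51.BF

namespace Mas

variable {D : ℕ}

/-- the linear form `i` on the line through the zero of the form `z` -/
noncomputable def ell (S : Forms D) (z i : Fin D) : ℚ[X] :=
  C ((S.p i : ℚ) * S.q z - S.q i * S.p z) * X + C ((S.p i : ℚ) * S.p z + S.q i * S.q z)

/-- the form `j` -/
noncomputable def P (S : Forms D) (z : Fin D) (j : Fin 3) : ℚ[X] :=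
  C (S.k j : ℚ) * ∏ i ∈ Finset.univ.filter (fun i => S.s i = j), ell S z i ^ S.e i

theorem eval_ell (S : Forms D) (z i : Fin D) (t : ℤ) : (ell S z i).eval (t : ℚ) =
    ((S.L i (S.p z + S.q z * t) (S.q z - S.p z * t) : ℤ) : ℚ) := by
  unfold ell Forms.L
  simp only [eval_add, eval_mul, eval_C, eval_X]
  push_cast
  ring

theorem eval_P (S : Forms D) (z : Fin D) (j : Fin 3) (t : ℤ) : (P S z j).eval (t : ℚ) =
    ((S.F j (S.p z + S.q z * t) (S.q z - S.p z * t) : ℤ) : ℚ) := by
  unfold P Forms.F
  rw [eval_mul, eval_prod, eval_C]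
  simp only [eval_pow, eval_ell]
  push_cast
  rfl

theorem sum_P {S : Forms D} {d : ℕ} (h : S.IsIdentity d) (z : Fin D) :
    P S z 0 + P S z 1 = P S z 2 := by
  apply eq_of_infinite_eval_eq
  refine Set.infinite_of_injective_forall_mem (f := fun n : ℤ => (n : ℚ)) Int.cast_injective ?_
  intro t
  change eval (t : ℚ) (P S z 0 + P S z 1) = eval (t : ℚ) (P S z 2)
  rw [eval_add, eval_P, eval_P, eval_P, ← h.sum]
  push_cast
  rfl

end Mas

open Mas in
theorem mason {D d : ℕ} (hd : 1 ≤ d) {S : Forms D} (h : S.IsIdentity d) : d + 2 ≤ D := by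
  classical
  have hex : ∀ j, ∃ i, S.s i = j := by
    intro j
    have h1 := h.degree j
    have h2 : (Finset.univ.filter (fun i => S.s i = j)).Nonempty := by
      rw [Finset.nonempty_iff_ne_empty]
      intro h0
      rw [h0, Finset.sum_empty] at h1
      omega
    obtain ⟨i, hi⟩ := h2
    exact ⟨i, (Finset.mem_filter.1 hi).2⟩
  obtain ⟨z, hz⟩ := hex 0
  obtain ⟨w, hw⟩ := hex 1
  have hzw : z ≠ w := by
    rintro rfl
    rw [hz] at hw
    exact absurd hw (by decide)
  have hN : (S.p z : ℚ) * S.p z + S.q z * S.q z ≠ 0 := by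
    intro h0
    have h1 := h.indep z w hzw
    have hp : (S.p z : ℚ) = 0 := by nlinarith [mul_self_nonneg (S.p z : ℚ), mul_self_nonneg (S.q z : ℚ)]
    have hq : (S.q z : ℚ) = 0 := by nlinarith [mul_self_nonneg (S.p z : ℚ), mul_self_nonneg (S.q z : ℚ)]
    have hp' : S.p z = 0 := by exact_mod_cast hp
    have hq' : S.q z = 0 := by exact_mod_cast hq
    apply h1
    rw [hp', hq']
    ring
  have hdet : ∀ i j, i ≠ j → (S.p i : ℚ) * S.q j - S.p j * S.q i ≠ 0 := by
    intro i j hij
    have := h.indep i j hij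
    exact_mod_cast this
  -- the linear factors
  have hz1 : ell S z z = C ((S.p z : ℚ) * S.p z + S.q z * S.q z) := by
    unfold ell
    rw [show (S.p z : ℚ) * S.q z - S.q z * S.p z = 0 by ring, C_0, zero_mul, zero_add]
  have hzu : IsUnit (ell S z z) := by
    rw [hz1]
    exact isUnit_C.2 (isUnit_iff_ne_zero.2 hN)
  have hdeg : ∀ i, i ≠ z → (ell S z i).natDegree = 1 := by
    intro i hi
    apply natDegree_linear
    have := hdet i z hi
    intro h0
    apply this
    linear_combination h0
  have hne : ∀ i, ell S z i ≠ 0 := by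
    intro i
    by_cases hi : i = z
    · subst hi
      exact hzu.ne_zero
    · intro h0
      have := hdeg i hi
      rw [h0, natDegree_zero] at this
      omega
  have hcop : ∀ i j, i ≠ j → IsCoprime (ell S z i) (ell S z j) := by
    intro i j hij
    have h1 := hdet i j hij
    set e : ℚ := ((S.p i : ℚ) * S.q j - S.p j * S.q i) * ((S.p z : ℚ) * S.p z + S.q z * S.q z)
      with he
    have he0 : e ≠ 0 := mul_ne_zero h1 hN
    refine ⟨C (e⁻¹ * ((S.p z : ℚ) * S.q j - S.q z * S.p j)),
      C (e⁻¹ * ((S.q z : ℚ) * S.p i - S.p z * S.q i)), ?_⟩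
    have h2 : (C (e⁻¹) * C e : ℚ[X]) = 1 := by
      rw [← C_mul, inv_mul_cancel₀ he0, C_1]
    rw [← h2, he]
    unfold ell
    simp only [C_mul, C_sub, C_add]
    ring
  -- the forms
  have hk : ∀ j, IsUnit (C (S.k j : ℚ) : ℚ[X]) := by
    intro j
    refine isUnit_C.2 (isUnit_iff_ne_zero.2 ?_)
    exact_mod_cast h.ne_zero j
  have hP0 : ∀ j, P S z j ≠ 0 := by
    intro j
    exact mul_ne_zero (hk j).ne_zero (Finset.prod_ne_zero_iff.2 fun i _ => pow_ne_zero _ (hne i))
  have hcP : IsCoprime (P S z 0) (P S z 1) := by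
    unfold P
    rw [isCoprime_mul_unit_left_left (hk 0), isCoprime_mul_unit_left_right (hk 1)]
    refine IsCoprime.prod_left fun i hi => IsCoprime.prod_right fun j hj => ?_
    apply IsCoprime.pow
    apply hcop
    rintro rfl
    have h1 := (Finset.mem_filter.1 hi).2
    have h2 := (Finset.mem_filter.1 hj).2
    rw [h1] at h2
    exact absurd h2 (by decide)
  have hdP : (P S z 1).natDegree = d := by
    unfold P
    rw [natDegree_C_mul (by exact_mod_cast h.ne_zero 1), natDegree_prod _ _ fun i _ => pow_ne_zero _ (hne i),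
      ← h.degree 1]
    refine Finset.sum_congr rfl fun i hi => ?_
    rw [natDegree_pow, hdeg i, mul_one]
    rintro rfl
    have h3 := (Finset.mem_filter.1 hi).2
    rw [hz] at h3
    exact absurd h3 (by decide)
  -- the product of the linear factors
  set R : ℚ[X] := ∏ i ∈ Finset.univ.erase z, ell S z i with hR
  have hR0 : R ≠ 0 := Finset.prod_ne_zero_iff.2 fun i _ => hne i
  have hRd : R.natDegree + 1 = D := by
    rw [hR, natDegree_prod _ _ fun i _ => hne i,
      Finset.sum_congr rfl fun i hi => hdeg i (Finset.ne_of_mem_erase hi), Finset.sum_const,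
      smul_eq_mul, mul_one, Finset.card_erase_of_mem (Finset.mem_univ z), Finset.card_univ,
      Fintype.card_fin]
    have := z.pos
    omega
  have hlR : ∀ i, ell S z i ∣ R := by
    intro i
    by_cases hi : i = z
    · subst hi
      exact hzu.dvd
    · exact Finset.dvd_prod_of_mem _ (Finset.mem_erase.2 ⟨hi, Finset.mem_univ i⟩)
  have hPR : ∀ j, P S z j ∣ R ^ d := by
    intro j
    unfold P
    rw [(hk j).mul_left_dvd, ← h.degree j, ← Finset.prod_pow_eq_pow_sum]
    exact Finset.prod_dvd_prod_of_dvd _ _ fun i _ => pow_dvd_pow_of_dvd (hlR i) _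
  have hc0 : -P S z 2 ≠ 0 := neg_ne_zero.2 (hP0 2)
  have habc : P S z 0 * P S z 1 * -P S z 2 ≠ 0 := mul_ne_zero (mul_ne_zero (hP0 0) (hP0 1)) hc0
  have hrad : radical (P S z 0 * P S z 1 * -P S z 2) ∣ R := by
    rw [← exists_dvd_pow_iff_radical_dvd habc]
    refine ⟨d + d + d, ?_⟩
    rw [pow_add, pow_add]
    exact mul_dvd_mul (mul_dvd_mul (hPR 0) (hPR 1)) ((neg_dvd).2 (hPR 2))
  have hle := natDegree_le_of_dvd hrad hR0
  rcases Polynomial.abc (hP0 0) (hP0 1) hc0 hcP (by rw [sum_P h z]; ring) with h1 | h1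
  · have h2 := h1.2.1
    omega
  · have h2 := derivative_eq_zero.1 h1.2.1
    omega

end Pool.Agent.NH51.BF
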