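import Pool.Agent.NH51.BF.Fin
import Pool.Agent.NH51.BF.Mason
import Pool.Agent.NH51.BF.Many

/-!
# Identities between split binary forms: counting by the size of the triple
-/

set_option autoImplicit false

namespace Pool.Agent.NH51.BF

open Finset

variable {D : ℕ}

/-- The pairs of coprime integers whose abc-triple has `c ≤ X` and the property `P`. -/
def Points {D : ℕ} (S : Forms D) (P : ℕ → ℕ → ℕ → Prop) (X : ℝ) : Set (ℤ × ℤ) :=
  {z | IsCoprime z.1 z.2 ∧ ∃ a b c : ℕ, 0 < a ∧ 0 < b ∧ Nat.Coprime a b ∧ a + b = c ∧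
    S.Member z.1 z.2 a b c ∧ (c : ℝ) ≤ X ∧ P a b c}

/-- the constant -/
def Forms.KK (S : Forms D) (d : ℕ) : ℕ := (2 * S.A0) ^ d * S.G.natAbs

theorem KK_pos {S : Forms D} {d : ℕ} (h : S.IsIdentity d) : 1 ≤ S.KK d := by
  have h1 := Int.natAbs_pos.2 (G_ne_zero h)
  have h2 := A0_pos S
  unfold Forms.KK
  have : 0 < (2 * S.A0) ^ d * S.G.natAbs := by positivity
  omega

theorem M_real {S : Forms D} {d : ℕ} (h : S.IsIdentity d) (hd : 1 ≤ d) {x y : ℤ}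
    (hxy : IsCoprime x y) {a b c : ℕ} (hc : a + b = c) (hm : S.Member x y a b c) :
    ((max x.natAbs y.natAbs : ℕ) : ℝ) ≤ ((S.KK d : ℝ) * (c : ℝ)) ^ (1 / (d : ℝ)) := by
  have hd' : (0 : ℝ) < d := by exact_mod_cast hd
  have h1 : ((max x.natAbs y.natAbs : ℕ) : ℝ) ^ d ≤ (S.KK d : ℝ) * (c : ℝ) := by
    exact_mod_cast M_pow_le h hxy hc hm
  have h2 := Real.rpow_le_rpow (by positivity) h1 (show 0 ≤ 1 / (d : ℝ) by positivity)
  rwa [← Real.rpow_natCast, ← Real.rpow_mul (Nat.cast_nonneg _), mul_one_div_cancel hd'.ne',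
    Real.rpow_one] at h2

theorem points_finite {S : Forms D} {d : ℕ} (h : S.IsIdentity d) (hd : 1 ≤ d)
    (P : ℕ → ℕ → ℕ → Prop) (X : ℝ) : (Points S P X).Finite := by
  set N : ℕ := ⌊(S.KK d : ℝ) * X⌋₊ with hN
  refine Set.Finite.subset (Finset.finite_toSet
    (Finset.Icc (-(N : ℤ)) N ×ˢ Finset.Icc (-(N : ℤ)) N)) ?_
  rintro ⟨x, y⟩ ⟨h1, a, b, c, ha, hb, -, hc, hm, hX, -⟩
  simp only at h1 hm
  have h2 : max x.natAbs y.natAbs ≤ S.KK d * c :=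
    (Nat.le_self_pow (by omega) _).trans (M_pow_le h h1 hc hm)
  have h3 : max x.natAbs y.natAbs ≤ N := by
    refine Nat.le_floor ?_
    calc ((max x.natAbs y.natAbs : ℕ) : ℝ) ≤ (S.KK d : ℝ) * (c : ℝ) := by exact_mod_cast h2
      _ ≤ _ := by gcongr
  rw [Finset.mem_coe, Finset.mem_product, Finset.mem_Icc, Finset.mem_Icc]
  simp only
  omega

theorem upper {S : Forms D} {d : ℕ} (h : S.IsIdentity d) (hd : 1 ≤ d) {P : ℕ → ℕ → ℕ → Prop}
    {E μ : ℝ} (hP : ∀ a b c : ℕ, 0 < a → 0 < b → a + b = c → P a b c →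
      (rad (a * b * c) : ℝ) ≤ E * (c : ℝ) ^ μ) {θ C : ℝ} (hθ : 0 ≤ θ) (hC0 : 0 ≤ C)
    (hC : ∀ N : ℕ, 1 ≤ N → ((Pts S E μ N).ncard : ℝ) ≤ C * (N : ℝ) ^ θ) (X : ℝ) (hX : 1 ≤ X) :
    ((Points S P X).ncard : ℝ) ≤
      C * (2 * (S.KK d : ℝ) ^ (1 / (d : ℝ))) ^ θ * X ^ (θ / (d : ℝ)) := by
  have hd' : (0 : ℝ) < d := by exact_mod_cast hd
  have hK : (1 : ℝ) ≤ S.KK d := by exact_mod_cast KK_pos h
  have hX0 : (0 : ℝ) < X := by linarith
  set Y : ℝ := ((S.KK d : ℝ) * X) ^ (1 / (d : ℝ)) with hY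
  have hY1 : 1 ≤ Y := Real.one_le_rpow (by nlinarith) (by positivity)
  set N : ℕ := ⌊Y⌋₊ + 1 with hN
  have hN2 : (N : ℝ) ≤ 2 * Y := by
    rw [hN]; push_cast
    have := Nat.floor_le (show 0 ≤ Y by linarith)
    linarith
  have hsub : Points S P X ⊆ Pts S E μ N := by
    rintro ⟨x, y⟩ ⟨h1, a, b, c, ha, hb, -, hc, hm, hcX, hPP⟩
    simp only at h1 hm
    have h2 := M_real h hd h1 hc hm
    have h3 : ((max x.natAbs y.natAbs : ℕ) : ℝ) ≤ Y := by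
      refine h2.trans ?_
      rw [hY]
      gcongr
    have h4 : max x.natAbs y.natAbs ≤ N := by
      have := Nat.le_floor h3
      omega
    exact ⟨h1, (le_max_left _ _).trans h4, (le_max_right _ _).trans h4, a, b, c, ha, hb, hc, hm,
      hP a b c ha hb hc hPP⟩
  have h5 : ((Points S P X).ncard : ℝ) ≤ ((Pts S E μ N).ncard : ℝ) := by
    exact_mod_cast Set.ncard_le_ncard hsub (pts_finite S E μ N)
  have h6 : (N : ℝ) ^ θ ≤ (2 * (S.KK d : ℝ) ^ (1 / (d : ℝ))) ^ θ * X ^ (θ / (d : ℝ)) := by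
    calc (N : ℝ) ^ θ ≤ (2 * Y) ^ θ := Real.rpow_le_rpow (Nat.cast_nonneg _) hN2 hθ
      _ = ((2 * (S.KK d : ℝ) ^ (1 / (d : ℝ))) * X ^ (1 / (d : ℝ))) ^ θ := by
          rw [hY, Real.mul_rpow (by positivity) hX0.le, mul_assoc]
      _ = _ := by
          rw [Real.mul_rpow (by positivity) (by positivity), ← Real.rpow_mul hX0.le]
          congr 2
          ring
  calc ((Points S P X).ncard : ℝ) ≤ C * (N : ℝ) ^ θ := h5.trans (hC N (by omega))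
    _ ≤ C * ((2 * (S.KK d : ℝ) ^ (1 / (d : ℝ))) ^ θ * X ^ (θ / (d : ℝ))) :=
        mul_le_mul_of_nonneg_left h6 hC0
    _ = _ := by ring

/-- the trivial bound for the radical -/
theorem rad_triv {S : Forms D} {d : ℕ} (h : S.IsIdentity d) (hd : 1 ≤ d) :
    ∃ R : ℝ, 0 < R ∧ ∀ (x y : ℤ) (a b c : ℕ), IsCoprime x y → 0 < a → 0 < b → a + b = c →
      S.Member x y a b c → (rad (a * b * c) : ℝ) ≤ R * (c : ℝ) ^ ((D : ℝ) / d) := by
  have hd' : (0 : ℝ) < d := by exact_mod_cast hd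
  have hK : (1 : ℝ) ≤ S.KK d := by exact_mod_cast KK_pos h
  have hA0 : (0 : ℝ) < S.A0 := by exact_mod_cast A0_pos S
  have hbad : (0 : ℝ) < S.bad := by exact_mod_cast Nat.pos_of_ne_zero (bad_ne_zero h)
  refine ⟨(S.bad : ℝ) * (S.A0 : ℝ) ^ D * (S.KK d : ℝ) ^ ((D : ℝ) / d), by positivity, ?_⟩
  intro x y a b c hxy ha hb hc hm
  have h1 : (rad (a * b * c) : ℝ) ≤
      (S.bad : ℝ) * ((S.A0 : ℝ) * ((max x.natAbs y.natAbs : ℕ) : ℝ)) ^ D := by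
    exact_mod_cast rad_le_pow h ha hb hc hm
  have h2 := M_real h hd hxy hc hm
  have h3 : ((max x.natAbs y.natAbs : ℕ) : ℝ) ^ D ≤
      (S.KK d : ℝ) ^ ((D : ℝ) / d) * (c : ℝ) ^ ((D : ℝ) / d) := by
    calc ((max x.natAbs y.natAbs : ℕ) : ℝ) ^ D ≤
          (((S.KK d : ℝ) * (c : ℝ)) ^ (1 / (d : ℝ))) ^ D := by gcongr
      _ = ((S.KK d : ℝ) * (c : ℝ)) ^ ((D : ℝ) / d) := by
          rw [← Real.rpow_natCast, ← Real.rpow_mul (by positivity)]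
          congr 1
          ring
      _ = _ := Real.mul_rpow (by positivity) (Nat.cast_nonneg _)
  calc (rad (a * b * c) : ℝ) ≤
        (S.bad : ℝ) * ((S.A0 : ℝ) * ((max x.natAbs y.natAbs : ℕ) : ℝ)) ^ D := h1
    _ = (S.bad : ℝ) * (S.A0 : ℝ) ^ D * ((max x.natAbs y.natAbs : ℕ) : ℝ) ^ D := by
        rw [mul_pow]; ring
    _ ≤ (S.bad : ℝ) * (S.A0 : ℝ) ^ D *
        ((S.KK d : ℝ) ^ ((D : ℝ) / d) * (c : ℝ) ^ ((D : ℝ) / d)) := by gcongr
    _ = _ := by ring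

/-- there are many points -/
theorem lower {S : Forms D} {d : ℕ} (h : S.IsIdentity d) (hd : 1 ≤ d) (hD : 2 ≤ D) :
    ∃ c₀ X₀ : ℝ, 0 < c₀ ∧ ∀ X : ℝ, X₀ ≤ X →
      c₀ * X ^ (2 / (d : ℝ)) ≤ ((Points S (fun _ _ _ => True) X).ncard : ℝ) := by
  classical
  have hd' : (0 : ℝ) < d := by exact_mod_cast hd
  have hD' : (2 : ℝ) ≤ D := by exact_mod_cast hD
  have hA0 : (1 : ℝ) ≤ S.A0 := by exact_mod_cast A0_pos S
  have hbad : (0 : ℝ) < S.bad := by exact_mod_cast Nat.pos_of_ne_zero (bad_ne_zero h)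
  refine ⟨((S.bad : ℝ) ^ (1 / (d : ℝ)) * S.A0)⁻¹ ^ 2 / 32,
    (S.bad : ℝ) * (32 * D * S.A0) ^ d, by positivity, fun X hX => ?_⟩
  have hX0 : 0 < X := lt_of_lt_of_le (by positivity) hX
  set Z : ℝ := (X / S.bad) ^ (1 / (d : ℝ)) with hZ
  have hZd : Z ^ d = X / S.bad := by
    rw [hZ, ← Real.rpow_natCast, ← Real.rpow_mul (by positivity), one_div_mul_cancel hd'.ne',
      Real.rpow_one]
  have hZ1 : 32 * D * S.A0 ≤ Z := by
    have h1 : (32 * D * S.A0 : ℝ) ^ d ≤ X / S.bad := by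
      rw [le_div_iff₀ hbad, mul_comm]; exact hX
    have h2 := Real.rpow_le_rpow (by positivity) h1 (show 0 ≤ 1 / (d : ℝ) by positivity)
    rwa [← Real.rpow_natCast, ← Real.rpow_mul (by positivity), mul_one_div_cancel hd'.ne',
      Real.rpow_one] at h2
  set Y : ℝ := Z / S.A0 with hY
  have hY1 : 32 * D ≤ Y := by
    rw [hY, le_div_iff₀ (by linarith)]; exact hZ1
  set N : ℕ := ⌊Y⌋₊ with hN
  have hN1 : (N : ℝ) ≤ Y := Nat.floor_le (by linarith)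
  have hN2 : Y / 2 ≤ (N : ℝ) := by
    have := Nat.lt_floor_add_one Y
    linarith
  set g : ℕ × ℕ → ℤ × ℤ := fun t => ((t.1 : ℤ), (t.2 : ℤ)) with hg
  have hginj : Function.Injective g := by
    rintro ⟨a, b⟩ ⟨a', b'⟩ he
    simp only [hg, Prod.mk.injEq, Nat.cast_inj] at he
    exact Prod.ext he.1 he.2
  set W : Finset (ℕ × ℕ) := (Cop N).filter fun t => ∀ i, S.L i (t.1 : ℤ) (t.2 : ℤ) ≠ 0 with hW
  have hsub : ((W.image g : Finset (ℤ × ℤ)) : Set (ℤ × ℤ)) ⊆ Points S (fun _ _ _ => True) X := by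
    intro z hz
    rw [mem_coe, mem_image] at hz
    obtain ⟨⟨m, n⟩, ht, rfl⟩ := hz
    rw [hW, mem_filter, Cop, mem_filter, mem_product, mem_Icc, mem_Icc] at ht
    simp only at ht
    obtain ⟨⟨⟨⟨hm1, hmN⟩, hn1, hnN⟩, hco⟩, hL⟩ := ht
    have hF := F_ne_zero h hL
    obtain ⟨a, b, c, gg, σ, ha, hb, hab, hc, hgg, e0, e1, e2⟩ :=
      exists_member (F := fun j => S.F j (m : ℤ) (n : ℤ)) (hF 0) (hF 1) (hF 2) (h.sum _ _)
    have hm : S.Member (m : ℤ) (n : ℤ) a b c := ⟨gg, σ, hgg, e0, e1, e2⟩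
    refine ⟨Nat.isCoprime_iff_coprime.2 hco, a, b, c, ha, hb, hab, hc, hm, ?_, trivial⟩
    have h1 := c_le h hm
    have h2 : max (m : ℤ).natAbs (n : ℤ).natAbs ≤ N := by
      rw [Int.natAbs_natCast, Int.natAbs_natCast]; exact max_le hmN hnN
    have h3 : c ≤ S.bad * (S.A0 * N) ^ d := h1.trans (by gcongr)
    calc (c : ℝ) ≤ (S.bad : ℝ) * ((S.A0 : ℝ) * (N : ℝ)) ^ d := by exact_mod_cast h3
      _ ≤ (S.bad : ℝ) * ((S.A0 : ℝ) * Y) ^ d := by gcongr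
      _ = (S.bad : ℝ) * Z ^ d := by
          rw [hY, mul_div_cancel₀ _ (by linarith)]
      _ = X := by rw [hZd, mul_div_cancel₀ _ hbad.ne']
  have h1 : W.card ≤ (Points S (fun _ _ _ => True) X).ncard := by
    have := Set.ncard_le_ncard hsub (points_finite h hd _ X)
    rwa [Set.ncard_coe_finset, card_image_of_injective _ hginj] at this
  have h2 : (W.card : ℝ) ≤ ((Points S (fun _ _ _ => True) X).ncard : ℝ) := by exact_mod_cast h1
  have h3 := card_good h hD N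
  have h4 : X ^ (2 / (d : ℝ)) = ((S.bad : ℝ) ^ (1 / (d : ℝ)) * S.A0) ^ 2 * Y ^ 2 := by
    have e1 : X ^ (2 / (d : ℝ)) = (X ^ (1 / (d : ℝ))) ^ 2 := by
      rw [← Real.rpow_natCast, ← Real.rpow_mul hX0.le]
      congr 1
      push_cast
      ring
    have e2 : X ^ (1 / (d : ℝ)) = (S.bad : ℝ) ^ (1 / (d : ℝ)) * Z := by
      rw [hZ, Real.div_rpow hX0.le hbad.le, mul_div_cancel₀ _ (by positivity)]
    have e3 : Z = S.A0 * Y := by rw [hY, mul_div_cancel₀ _ (by linarith)]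
    rw [e1, e2, e3]
    ring
  have h5 : ((S.bad : ℝ) ^ (1 / (d : ℝ)) * S.A0)⁻¹ ^ 2 / 32 * X ^ (2 / (d : ℝ)) = Y ^ 2 / 32 := by
    rw [h4]
    have hne : (S.bad : ℝ) ^ (1 / (d : ℝ)) * S.A0 ≠ 0 := by positivity
    field_simp
  rw [h5]
  have hDp : (0 : ℝ) ≤ D := Nat.cast_nonneg _
  nlinarith

end Pool.Agent.NH51.BF
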