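import Pool.Agent.NH51.BF.Triple
import Pool.Agent.W221.ABC.Main7

/-!
# Identities between split binary forms: the count
-/

set_option autoImplicit false

namespace Pool.Agent.NH51.BF

open Finset Pool.Agent.W221.ABC7

variable {D : ℕ}

/-- the points with an abc-triple of small radical -/
def Pts (S : Forms D) (E μ : ℝ) (N : ℕ) : Set (ℤ × ℤ) :=
  {z | IsCoprime z.1 z.2 ∧ z.1.natAbs ≤ N ∧ z.2.natAbs ≤ N ∧ ∃ a b c : ℕ, 0 < a ∧ 0 < b ∧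
    a + b = c ∧ S.Member z.1 z.2 a b c ∧ (rad (a * b * c) : ℝ) ≤ E * (c : ℝ) ^ μ}

theorem pts_finite (S : Forms D) (E μ : ℝ) (N : ℕ) : (Pts S E μ N).Finite := by
  refine Set.Finite.subset (Finset.finite_toSet
    (Finset.Icc (-(N : ℤ)) N ×ˢ Finset.Icc (-(N : ℤ)) N)) ?_
  rintro ⟨x, y⟩ ⟨-, h1, h2, -⟩
  simp only at h1 h2
  rw [Finset.mem_coe, Finset.mem_product, Finset.mem_Icc, Finset.mem_Icc]
  simp only
  omega

/-- the constant of the next lemma -/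
noncomputable def K1 (S : Forms D) (E μ : ℝ) (d : ℕ) : ℝ :=
  (S.bad : ℝ) ^ D * (E * ((S.bad : ℝ) * (S.A0 : ℝ) ^ d) ^ μ)

theorem prod_le {S : Forms D} {d : ℕ} (h : S.IsIdentity d) {E μ : ℝ} (hE : 0 < E) (hμ : 0 < μ)
    {x y : ℤ} (hxy : IsCoprime x y) {a b c : ℕ} (ha : 0 < a) (hb : 0 < b) (hc : a + b = c)
    (hm : S.Member x y a b c) (hr : (rad (a * b * c) : ℝ) ≤ E * (c : ℝ) ^ μ) :
    ((∏ i, rad (S.L i x y).natAbs : ℕ) : ℝ) ≤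
      K1 S E μ d * ((max x.natAbs y.natAbs : ℕ) : ℝ) ^ ((d : ℝ) * μ) := by
  set M : ℕ := max x.natAbs y.natAbs with hM
  have h1 : ((∏ i, rad (S.L i x y).natAbs : ℕ) : ℝ) ≤ (S.bad : ℝ) ^ D * (rad (a * b * c) : ℝ) := by
    exact_mod_cast rad_prod h hxy ha hb (by omega) hm
  have h2 : (c : ℝ) ≤ ((S.bad : ℝ) * (S.A0 : ℝ) ^ d) * (M : ℝ) ^ (d : ℝ) := by
    have h3 : (c : ℝ) ≤ (S.bad : ℝ) * ((S.A0 : ℝ) * (M : ℝ)) ^ d := by exact_mod_cast c_le h hm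
    rw [Real.rpow_natCast]
    calc (c : ℝ) ≤ (S.bad : ℝ) * ((S.A0 : ℝ) * (M : ℝ)) ^ d := h3
      _ = _ := by rw [mul_pow]; ring
  have h4 : (c : ℝ) ^ μ ≤ ((S.bad : ℝ) * (S.A0 : ℝ) ^ d) ^ μ * (M : ℝ) ^ ((d : ℝ) * μ) := by
    calc (c : ℝ) ^ μ ≤ (((S.bad : ℝ) * (S.A0 : ℝ) ^ d) * (M : ℝ) ^ (d : ℝ)) ^ μ :=
          Real.rpow_le_rpow (Nat.cast_nonneg _) h2 hμ.le
      _ = _ := by
          rw [Real.mul_rpow (by positivity) (by positivity), ← Real.rpow_mul (Nat.cast_nonneg _)]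
  calc ((∏ i, rad (S.L i x y).natAbs : ℕ) : ℝ) ≤ (S.bad : ℝ) ^ D * (rad (a * b * c) : ℝ) := h1
    _ ≤ (S.bad : ℝ) ^ D * (E * (c : ℝ) ^ μ) := by gcongr
    _ ≤ (S.bad : ℝ) ^ D *
        (E * (((S.bad : ℝ) * (S.A0 : ℝ) ^ d) ^ μ * (M : ℝ) ^ ((d : ℝ) * μ))) := by gcongr
    _ = _ := by unfold K1; ring

theorem K1_pos {S : Forms D} {d : ℕ} (h : S.IsIdentity d) {E μ : ℝ} (hE : 0 < E) :
    0 < K1 S E μ d := by
  have h1 : (0 : ℝ) < S.bad := by exact_mod_cast Nat.pos_of_ne_zero (bad_ne_zero h)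
  have h2 : (0 : ℝ) < S.A0 := by exact_mod_cast A0_pos S
  unfold K1
  positivity

/-- from a power to the number -/
theorem root_le {z Y K e : ℝ} (hz : 0 ≤ z) (hK : 0 < K) (hY : 0 ≤ Y) (hD : 0 < D)
    (h : z ^ D ≤ (K * Y ^ e) ^ 3) : z ≤ K ^ (3 / (D : ℝ)) * Y ^ (3 * e / (D : ℝ)) := by
  have hD' : (0 : ℝ) < D := by exact_mod_cast hD
  have h1 : (z ^ D) ^ (1 / (D : ℝ)) ≤ ((K * Y ^ e) ^ 3) ^ (1 / (D : ℝ)) :=
    Real.rpow_le_rpow (by positivity) h (by positivity)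
  have h2 : (z ^ D) ^ (1 / (D : ℝ)) = z := by
    rw [← Real.rpow_natCast, ← Real.rpow_mul hz, mul_one_div_cancel hD'.ne', Real.rpow_one]
  have h3 : ((K * Y ^ e) ^ 3) ^ (1 / (D : ℝ)) = K ^ (3 / (D : ℝ)) * Y ^ (3 * e / (D : ℝ)) := by
    have hp : 0 ≤ K * Y ^ e := by positivity
    rw [← Real.rpow_natCast (K * Y ^ e) 3, ← Real.rpow_mul hp,
      Real.mul_rpow hK.le (Real.rpow_nonneg hY _), ← Real.rpow_mul hY]
    congr 2
    · push_cast; ring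
    · push_cast; ring
  rw [h2, h3] at h1
  exact h1

/-- the labels -/
abbrev Lb (D : ℕ) (m : ℕ) : Type :=
  (Fin D × Fin D × Fin D) × (Fin 3 × Bool) × (Fin 3 × Bool) × Fin m

/-- the relation between a label, a triple and a point -/
def Rel (S : Forms D) {m : ℕ} (l : Lb D m) (t : ℕ × ℕ × ℕ) (z : ℤ × ℤ) : Prop :=
  l.1.1 ≠ l.1.2.1 ∧ l.1.2.1 ≠ l.1.2.2 ∧ l.1.1 ≠ l.1.2.2 ∧
  S.det l.1.2.1 l.1.2.2 * S.L l.1.1 z.1 z.2 = (l.2.2.2 : ℕ) * val l.2.1 t ∧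
  S.det l.1.2.2 l.1.1 * S.L l.1.2.1 z.1 z.2 = (l.2.2.2 : ℕ) * val l.2.2.1 t

theorem rel_unique {S : Forms D} {d : ℕ} (h : S.IsIdentity d) {m : ℕ} {l : Lb D m}
    {t : ℕ × ℕ × ℕ} {z z' : ℤ × ℤ} (hz : Rel S l t z) (hz' : Rel S l t z') : z = z' := by
  obtain ⟨⟨i, j, k⟩, s₁, s₂, n⟩ := l
  obtain ⟨x, y⟩ := z
  obtain ⟨x', y'⟩ := z'
  obtain ⟨hij, hjk, hik, h1, h2⟩ := hz
  obtain ⟨-, -, -, h1', h2'⟩ := hz'
  simp only at hij hjk hik h1 h2 h1' h2'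
  have dij : S.det i j ≠ 0 := h.indep i j hij
  have djk : S.det j k ≠ 0 := h.indep j k hjk
  have dki : S.det k i ≠ 0 := h.indep k i (fun h => hik h.symm)
  have e1 : S.L i x y = S.L i x' y' := mul_left_cancel₀ djk (h1.trans h1'.symm)
  have e2 : S.L j x y = S.L j x' y' := mul_left_cancel₀ dki (h2.trans h2'.symm)
  have e3 : x = x' := mul_left_cancel₀ dij (by rw [det_x, det_x, e1, e2])
  have e4 : y = y' := mul_left_cancel₀ dij (by rw [det_y, det_y, e1, e2])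
  rw [e3, e4]

/-- the constant of the next lemma -/
noncomputable def K4 (S : Forms D) (E μ : ℝ) (d : ℕ) : ℝ :=
  (S.bad : ℝ) ^ 3 * ((K1 S E μ d) ^ (3 / (D : ℝ)) *
    (2 * S.A0 * S.bad ^ 3 : ℝ) ^ (3 * ((d : ℝ) * μ) / (D : ℝ)))

theorem exists_rel {S : Forms D} {d : ℕ} (h : S.IsIdentity d) (hD : 3 ≤ D) {E μ : ℝ} (hE : 0 < E)
    (hμ : 0 < μ) {N : ℕ} {z : ℤ × ℤ} (hz : z ∈ Pts S E μ N) :
    ∃ (l : Lb D (S.bad ^ 3 + 1)) (t : ℕ × ℕ × ℕ),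
      t ∈ ExcB (K4 S E μ d) (3 * ((d : ℝ) * μ) / (D : ℝ)) (2 * S.bad * S.A0 * N) ∧ Rel S l t z := by
  obtain ⟨x, y⟩ := z
  obtain ⟨hxy, hx, hy, a, b, c, ha, hb, hc, hm, hr⟩ := hz
  simp only at hxy hx hy hm
  set M : ℕ := max x.natAbs y.natAbs with hM
  have hL := L_ne_zero h ha hb (show 0 < c by omega) hm
  have h1 := prod_le h hE hμ hxy ha hb hc hm hr
  obtain ⟨i, j, k, hij, hjk, hik, h2⟩ :=
    three_small (fun i => rad (S.L i x y).natAbs) (fun i => rad_pos _) hD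
  set r : ℕ := rad (S.L i x y).natAbs * rad (S.L j x y).natAbs * rad (S.L k x y).natAbs with hr'
  have h3 : (r : ℝ) ^ D ≤ (K1 S E μ d * (M : ℝ) ^ ((d : ℝ) * μ)) ^ 3 := by
    calc (r : ℝ) ^ D = ((r ^ D : ℕ) : ℝ) := by push_cast; ring
      _ ≤ (((∏ l, rad (S.L l x y).natAbs) ^ 3 : ℕ) : ℝ) := by exact_mod_cast h2
      _ = ((∏ l, rad (S.L l x y).natAbs : ℕ) : ℝ) ^ 3 := by push_cast; ring
      _ ≤ _ := pow_le_pow_left₀ (Nat.cast_nonneg _) h1 3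
  have h4 := root_le (D := D) (Nat.cast_nonneg r) (K1_pos h hE) (Nat.cast_nonneg M) (by omega) h3
  obtain ⟨t, m, s₁, s₂, hm1, ht1, ht2, hco, hsum, hA, hB, hrad, hMt, htM⟩ :=
    linear_triple h hxy hij hjk hik hL
  have hbad : (0 : ℝ) < S.bad := by exact_mod_cast Nat.pos_of_ne_zero (bad_ne_zero h)
  have hA0 : (0 : ℝ) < S.A0 := by exact_mod_cast A0_pos S
  have hK1 := K1_pos h hE (μ := μ)
  refine ⟨((i, j, k), s₁, s₂, ⟨m, by omega⟩), t, ⟨ht1, ht2, hco, hsum, ?_, ?_⟩, hij, hjk, hik,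
    hA, hB⟩
  · calc t.2.2 ≤ 2 * S.bad * S.A0 * M := htM
      _ ≤ 2 * S.bad * S.A0 * N := Nat.mul_le_mul_left _ (max_le hx hy)
  · have e0 : 0 ≤ 3 * ((d : ℝ) * μ) / (D : ℝ) := by positivity
    have h5 : (rad (t.1 * t.2.1 * t.2.2) : ℝ) ≤ (S.bad : ℝ) ^ 3 * (r : ℝ) := by exact_mod_cast hrad
    have h6 : (M : ℝ) ≤ (2 * S.A0 * S.bad ^ 3 : ℝ) * (t.2.2 : ℝ) := by exact_mod_cast hMt
    change (rad (t.1 * t.2.1 * t.2.2) : ℝ) ≤ _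
    calc (rad (t.1 * t.2.1 * t.2.2) : ℝ) ≤ (S.bad : ℝ) ^ 3 * (r : ℝ) := h5
      _ ≤ (S.bad : ℝ) ^ 3 * ((K1 S E μ d) ^ (3 / (D : ℝ)) *
          (M : ℝ) ^ (3 * ((d : ℝ) * μ) / (D : ℝ))) := by gcongr
      _ ≤ (S.bad : ℝ) ^ 3 * ((K1 S E μ d) ^ (3 / (D : ℝ)) *
          ((2 * S.A0 * S.bad ^ 3 : ℝ) * (t.2.2 : ℝ)) ^ (3 * ((d : ℝ) * μ) / (D : ℝ))) := by
          have h7 : (M : ℝ) ^ (3 * ((d : ℝ) * μ) / (D : ℝ)) ≤
              ((2 * S.A0 * S.bad ^ 3 : ℝ) * (t.2.2 : ℝ)) ^ (3 * ((d : ℝ) * μ) / (D : ℝ)) :=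
            Real.rpow_le_rpow (Nat.cast_nonneg _) h6 e0
          have h8 : 0 ≤ (K1 S E μ d) ^ (3 / (D : ℝ)) := Real.rpow_nonneg hK1.le _
          exact mul_le_mul_of_nonneg_left (mul_le_mul_of_nonneg_left h7 h8) (by positivity)
      _ = _ := by
          unfold K4
          rw [Real.mul_rpow (by positivity) (Nat.cast_nonneg _)]
          ring

/-- **The count.** -/
theorem count_pts {S : Forms D} {d : ℕ} (h : S.IsIdentity d) (hd : 1 ≤ d) (hD : 3 ≤ D) {E μ : ℝ}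
    (hE : 0 < E) (hμ : 0 < μ) {ε : ℝ} (hε : 0 < ε) :
    ∃ C : ℝ, 0 < C ∧ ∀ N : ℕ, 1 ≤ N →
      ((Pts S E μ N).ncard : ℝ) ≤ C * (N : ℝ) ^ (Fx (3 * ((d : ℝ) * μ) / (D : ℝ)) + ε) := by
  classical
  set lam : ℝ := 3 * ((d : ℝ) * μ) / (D : ℝ) with hlam
  have hd' : (0 : ℝ) < d := by exact_mod_cast hd
  have hD' : (0 : ℝ) < D := by exact_mod_cast (by omega : 0 < D)
  have hl : 0 < lam := by rw [hlam]; positivity
  have hbad : 0 < S.bad := Nat.pos_of_ne_zero (bad_ne_zero h)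
  have hbad' : (0 : ℝ) < S.bad := by exact_mod_cast hbad
  have hA0 : (0 : ℝ) < S.A0 := by exact_mod_cast A0_pos S
  obtain ⟨C, hC⟩ := count_FxB (K4 S E μ d) lam ε hl hε
  have hex : 0 < Fx lam + ε := by have := Fx_pos lam hl; linarith
  refine ⟨(Fintype.card (Lb D (S.bad ^ 3 + 1)) : ℝ) *
    (|C| * (2 * S.bad * S.A0 : ℝ) ^ (Fx lam + ε)) + 1, by positivity, fun N hN => ?_⟩
  have hN' : (1 : ℝ) ≤ N := by exact_mod_cast hN
  set X : ℕ := 2 * S.bad * S.A0 * N with hX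
  have hX1 : 1 ≤ X := by
    rw [hX]
    have := A0_pos S
    have : 0 < 2 * S.bad * S.A0 * N := by positivity
    omega
  set G : Lb D (S.bad ^ 3 + 1) × (ℕ × ℕ × ℕ) → ℤ × ℤ := fun lt =>
    if hh : ∃ z, Rel S lt.1 lt.2 z then hh.choose else (0, 0) with hG
  have hsub : Pts S E μ N ⊆
      G '' ((Set.univ : Set (Lb D (S.bad ^ 3 + 1))) ×ˢ ExcB (K4 S E μ d) lam X) := by
    intro z hz
    obtain ⟨l, t, ht, hrel⟩ := exists_rel h hD hE hμ hz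
    refine ⟨(l, t), ⟨Set.mem_univ _, ht⟩, ?_⟩
    have hh : ∃ z, Rel S l t z := ⟨z, hrel⟩
    have e : G (l, t) = hh.choose := by rw [hG]; exact dif_pos hh
    rw [e]
    exact rel_unique h hh.choose_spec hrel
  have hfin : ((Set.univ : Set (Lb D (S.bad ^ 3 + 1))) ×ˢ ExcB (K4 S E μ d) lam X).Finite :=
    Set.finite_univ.prod (excB_finite _ _ _)
  have h1 : (Pts S E μ N).ncard ≤ Fintype.card (Lb D (S.bad ^ 3 + 1)) *
      (ExcB (K4 S E μ d) lam X).ncard := by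
    calc (Pts S E μ N).ncard ≤ _ := Set.ncard_le_ncard hsub (hfin.image G)
      _ ≤ ((Set.univ : Set (Lb D (S.bad ^ 3 + 1))) ×ˢ ExcB (K4 S E μ d) lam X).ncard :=
          Set.ncard_image_le hfin
      _ = _ := by rw [Set.ncard_prod, Set.ncard_univ, Nat.card_eq_fintype_card]
  have h2 := hC X hX1
  have h3 : (X : ℝ) ^ (Fx lam + ε) = (2 * S.bad * S.A0 : ℝ) ^ (Fx lam + ε) *
      (N : ℝ) ^ (Fx lam + ε) := by
    rw [hX]
    push_cast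
    rw [Real.mul_rpow (by positivity) (by positivity)]
  have hNe : (0 : ℝ) ≤ (N : ℝ) ^ (Fx lam + ε) := by positivity
  calc ((Pts S E μ N).ncard : ℝ) ≤ (Fintype.card (Lb D (S.bad ^ 3 + 1)) : ℝ) *
        ((ExcB (K4 S E μ d) lam X).ncard : ℝ) := by exact_mod_cast h1
    _ ≤ (Fintype.card (Lb D (S.bad ^ 3 + 1)) : ℝ) * (|C| * (X : ℝ) ^ (Fx lam + ε)) := by
        refine mul_le_mul_of_nonneg_left (h2.trans ?_) (Nat.cast_nonneg _)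
        exact mul_le_mul_of_nonneg_right (le_abs_self C) (by positivity)
    _ = ((Fintype.card (Lb D (S.bad ^ 3 + 1)) : ℝ) *
        (|C| * (2 * S.bad * S.A0 : ℝ) ^ (Fx lam + ε))) * (N : ℝ) ^ (Fx lam + ε) := by
        rw [h3]; ring
    _ ≤ _ := by
        refine mul_le_mul_of_nonneg_right ?_ hNe
        linarith

end Pool.Agent.NH51.BF
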