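import Mathlib

/-!
# Identities between split binary forms: definitions
-/

set_option autoImplicit false

namespace Pool.Agent.NH51.BF

/-- The data of three binary forms with integer coefficients that split into linear factors: `D` linear
forms `p i * x + q i * y`, the form `k j * ∏ (p i * x + q i * y) ^ e i` (over the `i` with `s i = j`)
for `j = 0, 1, 2`. -/
structure Forms (D : ℕ) where
  /-- the first coefficients -/
  p : Fin D → ℤ
  /-- the second coefficients -/
  q : Fin D → ℤ
  /-- the form to which the linear factor belongs -/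
  s : Fin D → Fin 3
  /-- the exponents -/
  e : Fin D → ℕ
  /-- the constant factors -/
  k : Fin 3 → ℤ

variable {D : ℕ}

/-- The linear form `i`. -/
def Forms.L (S : Forms D) (i : Fin D) (x y : ℤ) : ℤ := S.p i * x + S.q i * y

/-- The form `j`. -/
def Forms.F (S : Forms D) (j : Fin 3) (x y : ℤ) : ℤ :=
  S.k j * ∏ i ∈ Finset.univ.filter (fun i => S.s i = j), S.L i x y ^ S.e i

/-- The three forms are of degree `d`, pairwise coprime, the `D` linear factors are pairwise not
proportional, all of them occur, and the sum of the first two forms is the third one. -/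
structure Forms.IsIdentity (S : Forms D) (d : ℕ) : Prop where
  one_le : ∀ i, 1 ≤ S.e i
  indep : ∀ i j, i ≠ j → S.p i * S.q j - S.p j * S.q i ≠ 0
  ne_zero : ∀ j, S.k j ≠ 0
  degree : ∀ j, ∑ i ∈ Finset.univ.filter (fun i => S.s i = j), S.e i = d
  sum : ∀ x y, S.F 0 x y + S.F 1 x y = S.F 2 x y

/-- `(a, b, c)` is, up to the order of its members, the triple of the absolute values of the three
forms at `(x, y)`, divided by a common factor. -/
def Forms.Member (S : Forms D) (x y : ℤ) (a b c : ℕ) : Prop :=
  ∃ (g : ℕ) (σ : Equiv.Perm (Fin 3)), 1 ≤ g ∧ (S.F (σ 0) x y).natAbs = g * a ∧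
    (S.F (σ 1) x y).natAbs = g * b ∧ (S.F (σ 2) x y).natAbs = g * c

end Pool.Agent.NH51.BF
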