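import Pool.Agent.NH51.BF.Count

/-!
# Identities between split binary forms: exponents and examples
-/

set_option autoImplicit false

namespace Pool.Agent.NH51.BF

open Finset Pool.Agent.W221.ABC7

theorem Fx_mono {l m : ℝ} (h : l ≤ m) : Fx l ≤ Fx m := (ml_Fx l m h).1

theorem Fx_lt_two {l : ℝ} (h : l < 3) : Fx l < 2 := by
  have h1 := Fx_mono (le_max_left l 2)
  rw [Fx_two _ (le_max_right l 2)] at h1
  have h2 : max l 2 < 3 := max_lt h (by norm_num)
  linarith

/-- the exponent for the question -/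
noncomputable def w (d : ℕ) : ℝ :=
  if d = 1 then 15 / 28 else if d = 2 then 5 / 6 else if d = 3 then 1 else 2 - 6 / ((d : ℝ) + 2)

theorem Fx_le_w {d D : ℕ} (hd : 1 ≤ d) (hD : d + 2 ≤ D) :
    Fx (3 * ((d : ℝ) * 1) / (D : ℝ)) ≤ w d := by
  have hD' : (d : ℝ) + 2 ≤ D := by exact_mod_cast hD
  have hd' : (1 : ℝ) ≤ d := by exact_mod_cast hd
  have h1 : 3 * ((d : ℝ) * 1) / (D : ℝ) ≤ 3 * (d : ℝ) / ((d : ℝ) + 2) := by
    rw [mul_one]
    exact div_le_div_of_nonneg_left (by linarith) (by linarith) hD'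
  refine (Fx_mono h1).trans ?_
  unfold w
  split_ifs with e1 e2 e3
  · subst e1
    unfold Fx
    norm_num
  · subst e2
    unfold Fx
    norm_num
  · subst e3
    unfold Fx
    norm_num
  · have h4 : (4 : ℝ) ≤ d := by exact_mod_cast (by omega : 4 ≤ d)
    have h5 : 2 ≤ 3 * (d : ℝ) / ((d : ℝ) + 2) := by
      rw [le_div_iff₀ (by linarith)]
      linarith
    rw [Fx_two _ h5]
    have h6 : 3 * (d : ℝ) / ((d : ℝ) + 2) = 3 - 6 / ((d : ℝ) + 2) := by
      field_simp
      ring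
    rw [h6]
    linarith

/-- `x + y = (x + y)` -/
def ex1 : Forms 3 where
  p := ![1, 0, 1]
  q := ![0, 1, 1]
  s := ![0, 1, 2]
  e := ![1, 1, 1]
  k := ![1, 1, 1]

/-- `4 x y + (x - y) ^ 2 = (x + y) ^ 2` -/
def ex2 : Forms 4 where
  p := ![1, 0, 1, 1]
  q := ![0, 1, -1, 1]
  s := ![0, 0, 1, 2]
  e := ![1, 1, 2, 2]
  k := ![4, 1, 1]

/-- `x ^ 2 (3 y - 2 x) + (x - y) ^ 2 (2 x + y) = y ^ 3` -/
def ex3 : Forms 5 where
  p := ![1, -2, 1, 2, 0]
  q := ![0, 3, -1, 1, 1]
  s := ![0, 0, 1, 1, 2]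
  e := ![2, 1, 2, 1, 3]
  k := ![1, 1, 1]

/-- `(x - y) (x + y) ^ 3 + y ^ 3 (2 x + y) = x ^ 3 (x + 2 y)` -/
def ex4 : Forms 6 where
  p := ![1, 1, 0, 2, 1, 1]
  q := ![-1, 1, 1, 1, 0, 2]
  s := ![0, 0, 1, 1, 2, 2]
  e := ![1, 3, 3, 1, 3, 1]
  k := ![1, 1, 1]

theorem id1 : ex1.IsIdentity 1 where
  one_le := by decide
  indep := by decide
  ne_zero := by decide
  degree := by decide
  sum := by
    intro x y
    simp [Forms.F, Forms.L, ex1, Finset.prod_filter, Fin.prod_univ_succ]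

theorem id2 : ex2.IsIdentity 2 where
  one_le := by decide
  indep := by decide
  ne_zero := by decide
  degree := by decide
  sum := by
    intro x y
    simp [Forms.F, Forms.L, ex2, Finset.prod_filter, Fin.prod_univ_succ]
    ring

theorem id3 : ex3.IsIdentity 3 where
  one_le := by decide
  indep := by decide
  ne_zero := by decide
  degree := by decide
  sum := by
    intro x y
    simp [Forms.F, Forms.L, ex3, Finset.prod_filter, Fin.prod_univ_succ]
    ring

theorem id4 : ex4.IsIdentity 4 where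
  one_le := by decide
  indep := by decide
  ne_zero := by decide
  degree := by decide
  sum := by
    intro x y
    simp [Forms.F, Forms.L, ex4, Finset.prod_filter, Fin.prod_univ_succ]
    ring

end Pool.Agent.NH51.BF
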