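import Pool.Agent.NH51.BF.ByC

/-!
# Identities between split binary forms: members of all heights, ordered by the radical
-/

set_option autoImplicit false

namespace Pool.Agent.NH51.BF

open Finset

variable {D : ℕ}

/-- The pairs of coprime integers whose abc-triple has radical at most `X` and the property `P`. -/
def HPts (S : Forms D) (P : ℕ → ℕ → ℕ → Prop) (X : ℝ) : Set (ℤ × ℤ) :=
  {z | IsCoprime z.1 z.2 ∧ ∃ a b c : ℕ, 0 < a ∧ 0 < b ∧ Nat.Coprime a b ∧ a + b = c ∧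
    S.Member z.1 z.2 a b c ∧ (rad (a * b * c) : ℝ) ≤ X ∧ P a b c}

/-- the abc-triples of all heights, as pairs -/
def TrR (X : ℝ) : Set (ℕ × ℕ) :=
  {p | 0 < p.1 ∧ p.1 ≤ p.2 ∧ Nat.Coprime p.1 p.2 ∧ (rad (p.1 * p.2 * (p.1 + p.2)) : ℝ) ≤ X}

/-- those with `rad ^ M ≤ c` -/
def VrR (M X : ℝ) : Set (ℕ × ℕ) :=
  {p | p ∈ TrR X ∧ (rad (p.1 * p.2 * (p.1 + p.2)) : ℝ) ^ M ≤ ((p.1 + p.2 : ℕ) : ℝ)}

/-- the triple of a pair, in one of two orders -/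
def tt (s : Bool) (p : ℕ × ℕ) : ℕ × ℕ × ℕ :=
  if s then (p.1, p.2, p.1 + p.2) else (p.2, p.1, p.1 + p.2)

/-- the constant -/
noncomputable def K5 (S : Forms D) : ℝ := (S.bad : ℝ) ^ 3 * ((S.bad : ℝ) ^ D) ^ (3 / (D : ℝ))

theorem K5_ge {S : Forms D} {d : ℕ} (h : S.IsIdentity d) : 1 ≤ K5 S := by
  have hb : (1 : ℝ) ≤ S.bad := by exact_mod_cast Nat.pos_of_ne_zero (bad_ne_zero h)
  unfold K5
  have h1 : (1 : ℝ) ≤ (S.bad : ℝ) ^ 3 := one_le_pow₀ hb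
  have h2 : (1 : ℝ) ≤ ((S.bad : ℝ) ^ D) ^ (3 / (D : ℝ)) :=
    Real.one_le_rpow (one_le_pow₀ hb) (by positivity)
  nlinarith

theorem core {S : Forms D} {d : ℕ} (h : S.IsIdentity d) (hD : 3 ≤ D) {x y : ℤ}
    (hxy : IsCoprime x y) {a b c : ℕ} (ha : 0 < a) (hb : 0 < b) (hc : a + b = c)
    (hm : S.Member x y a b c) :
    ∃ (l : Lb D (S.bad ^ 3 + 1)) (s : Bool) (p : ℕ × ℕ), 0 < p.1 ∧ p.1 ≤ p.2 ∧
      Nat.Coprime p.1 p.2 ∧ (rad (p.1 * p.2 * (p.1 + p.2)) : ℝ) ≤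
        K5 S * (rad (a * b * c) : ℝ) ^ (3 / (D : ℝ)) ∧
      max x.natAbs y.natAbs ≤ 2 * S.A0 * S.bad ^ 3 * (p.1 + p.2) ∧ Rel S l (tt s p) (x, y) := by
  have hL := L_ne_zero h ha hb (show 0 < c by omega) hm
  have hbad : (0 : ℝ) < S.bad := by exact_mod_cast Nat.pos_of_ne_zero (bad_ne_zero h)
  have h1 : ((∏ i, rad (S.L i x y).natAbs : ℕ) : ℝ) ≤
      (S.bad : ℝ) ^ D * (rad (a * b * c) : ℝ) ^ (1 : ℝ) := by
    rw [Real.rpow_one]
    exact_mod_cast rad_prod h hxy ha hb (by omega) hm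
  obtain ⟨i, j, k, hij, hjk, hik, h2⟩ :=
    three_small (fun i => rad (S.L i x y).natAbs) (fun i => rad_pos _) hD
  set r : ℕ := rad (S.L i x y).natAbs * rad (S.L j x y).natAbs * rad (S.L k x y).natAbs with hr'
  have h3 : (r : ℝ) ^ D ≤ ((S.bad : ℝ) ^ D * (rad (a * b * c) : ℝ) ^ (1 : ℝ)) ^ 3 := by
    calc (r : ℝ) ^ D = ((r ^ D : ℕ) : ℝ) := by push_cast; ring
      _ ≤ (((∏ l, rad (S.L l x y).natAbs) ^ 3 : ℕ) : ℝ) := by exact_mod_cast h2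
      _ = ((∏ l, rad (S.L l x y).natAbs : ℕ) : ℝ) ^ 3 := by push_cast; ring
      _ ≤ _ := pow_le_pow_left₀ (Nat.cast_nonneg _) h1 3
  have h4 := root_le (D := D) (Nat.cast_nonneg r) (by positivity) (Nat.cast_nonneg _) (by omega) h3
  rw [mul_one] at h4
  obtain ⟨t, m, s₁, s₂, hm1, ht1, ht2, hco, hsum, hA, hB, hrad, hMt, htM⟩ :=
    linear_triple h hxy hij hjk hik hL
  have h5 : (rad (t.1 * t.2.1 * t.2.2) : ℝ) ≤ K5 S * (rad (a * b * c) : ℝ) ^ (3 / (D : ℝ)) := by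
    calc (rad (t.1 * t.2.1 * t.2.2) : ℝ) ≤ (S.bad : ℝ) ^ 3 * (r : ℝ) := by exact_mod_cast hrad
      _ ≤ (S.bad : ℝ) ^ 3 * (((S.bad : ℝ) ^ D) ^ (3 / (D : ℝ)) *
          (rad (a * b * c) : ℝ) ^ (3 / (D : ℝ))) := by gcongr
      _ = _ := by unfold K5; ring
  obtain ⟨u, v, w⟩ := t
  simp only at ht1 ht2 hco hsum hMt htM h5
  rcases le_total u v with huv | huv
  · refine ⟨((i, j, k), s₁, s₂, ⟨m, by omega⟩), true, (u, v), ht1, huv, hco, ?_, ?_,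
      hij, hjk, hik, ?_, ?_⟩
    · simp only; rw [hsum]; exact h5
    · simp only; rw [hsum]; exact hMt
    · simp only [tt, if_true, hsum]; exact hA
    · simp only [tt, if_true, hsum]; exact hB
  · have hsum' : v + u = w := by omega
    refine ⟨((i, j, k), s₁, s₂, ⟨m, by omega⟩), false, (v, u), ht2, huv, hco.symm, ?_, ?_,
      hij, hjk, hik, ?_, ?_⟩
    · simp only; rw [hsum', mul_comm v u]; exact h5
    · simp only; rw [hsum']; exact hMt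
    · simp only [tt, Bool.false_eq_true, if_false, hsum']; exact hA
    · simp only [tt, Bool.false_eq_true, if_false, hsum']; exact hB

theorem count_gen {S : Forms D} {d : ℕ} (h : S.IsIdentity d) {Z : Set (ℤ × ℤ)}
    {A : Set (ℕ × ℕ)} (hA : A.Finite)
    (hZ : ∀ z ∈ Z, ∃ (l : Lb D (S.bad ^ 3 + 1)) (s : Bool) (p : ℕ × ℕ), p ∈ A ∧ Rel S l (tt s p) z) :
    Z.Finite ∧ Z.ncard ≤ Fintype.card (Lb D (S.bad ^ 3 + 1) × Bool) * A.ncard := by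
  classical
  set G : (Lb D (S.bad ^ 3 + 1) × Bool) × (ℕ × ℕ) → ℤ × ℤ := fun lt =>
    if hh : ∃ z, Rel S lt.1.1 (tt lt.1.2 lt.2) z then hh.choose else (0, 0) with hG
  have hsub : Z ⊆ G '' ((Set.univ : Set (Lb D (S.bad ^ 3 + 1) × Bool)) ×ˢ A) := by
    intro z hz
    obtain ⟨l, s, p, hp, hrel⟩ := hZ z hz
    refine ⟨((l, s), p), ⟨Set.mem_univ _, hp⟩, ?_⟩
    have hh : ∃ z, Rel S l (tt s p) z := ⟨z, hrel⟩
    have e : G ((l, s), p) = hh.choose := by rw [hG]; exact dif_pos hh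
    rw [e]
    exact rel_unique h hh.choose_spec hrel
  have hfin : ((Set.univ : Set (Lb D (S.bad ^ 3 + 1) × Bool)) ×ˢ A).Finite :=
    Set.finite_univ.prod hA
  refine ⟨(hfin.image G).subset hsub, ?_⟩
  calc Z.ncard ≤ _ := Set.ncard_le_ncard hsub (hfin.image G)
    _ ≤ ((Set.univ : Set (Lb D (S.bad ^ 3 + 1) × Bool)) ×ˢ A).ncard := Set.ncard_image_le hfin
    _ = _ := by rw [Set.ncard_prod, Set.ncard_univ, Nat.card_eq_fintype_card]

/-- the number of all points -/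
theorem all_upper {S : Forms D} {d : ℕ} (h : S.IsIdentity d) (hD : 3 ≤ D)
    (P : ℕ → ℕ → ℕ → Prop) (hfin : ∀ X : ℝ, (TrR X).Finite) {C₁ : ℝ} (hC₁ : 0 ≤ C₁)
    (hcnt : ∀ X : ℝ, 1 ≤ X → ((TrR X).ncard : ℝ) ≤ C₁ * X ^ ((2 : ℝ) / 3)) :
    (∀ X : ℝ, (HPts S P X).Finite) ∧ ∃ C : ℝ, 0 < C ∧ ∀ X : ℝ, 1 ≤ X →
      ((HPts S P X).ncard : ℝ) ≤ C * X ^ (2 / (D : ℝ)) := by
  have hD0 : (0 : ℝ) < D := by exact_mod_cast (by omega : 0 < D)
  have hZ : ∀ X : ℝ, ∀ z ∈ HPts S P X, ∃ (l : Lb D (S.bad ^ 3 + 1)) (s : Bool) (p : ℕ × ℕ),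
      p ∈ TrR (K5 S * X ^ (3 / (D : ℝ))) ∧ Rel S l (tt s p) z := by
    rintro X ⟨x, y⟩ ⟨hxy, a, b, c, ha, hb, -, hc, hm, hX, -⟩
    obtain ⟨l, s, p, h1, h2, h3, h4, -, h6⟩ := core h hD hxy ha hb hc hm
    refine ⟨l, s, p, ⟨h1, h2, h3, h4.trans ?_⟩, h6⟩
    have hK := K5_ge h
    refine mul_le_mul_of_nonneg_left ?_ (by linarith)
    exact Real.rpow_le_rpow (Nat.cast_nonneg _) hX (by positivity)
  refine ⟨fun X => (count_gen h (hfin _) (hZ X)).1, ?_⟩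
  have hK := K5_ge h
  have hK0 : 0 < K5 S := by linarith
  refine ⟨(Fintype.card (Lb D (S.bad ^ 3 + 1) × Bool) : ℝ) * (C₁ * K5 S ^ ((2 : ℝ) / 3)) + 1,
    by positivity, fun X hX => ?_⟩
  have hX0 : 0 < X := by linarith
  have h1 : 1 ≤ K5 S * X ^ (3 / (D : ℝ)) := by
    have : 1 ≤ X ^ (3 / (D : ℝ)) := Real.one_le_rpow hX (by positivity)
    nlinarith
  have h2 := hcnt _ h1
  have h3 : (K5 S * X ^ (3 / (D : ℝ))) ^ ((2 : ℝ) / 3) =
      K5 S ^ ((2 : ℝ) / 3) * X ^ (2 / (D : ℝ)) := by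
    rw [Real.mul_rpow hK0.le (by positivity), ← Real.rpow_mul hX0.le]
    congr 2
    field_simp
  have h4 := (count_gen h (hfin _) (hZ X)).2
  have h5 : (0 : ℝ) ≤ X ^ (2 / (D : ℝ)) := by positivity
  calc ((HPts S P X).ncard : ℝ) ≤ (Fintype.card (Lb D (S.bad ^ 3 + 1) × Bool) : ℝ) *
        ((TrR (K5 S * X ^ (3 / (D : ℝ)))).ncard : ℝ) := by exact_mod_cast h4
    _ ≤ (Fintype.card (Lb D (S.bad ^ 3 + 1) × Bool) : ℝ) *
        (C₁ * (K5 S ^ ((2 : ℝ) / 3) * X ^ (2 / (D : ℝ)))) := by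
        rw [← h3]
        exact mul_le_mul_of_nonneg_left h2 (Nat.cast_nonneg _)
    _ = ((Fintype.card (Lb D (S.bad ^ 3 + 1) × Bool) : ℝ) * (C₁ * K5 S ^ ((2 : ℝ) / 3))) *
        X ^ (2 / (D : ℝ)) := by ring
    _ ≤ _ := by
        refine mul_le_mul_of_nonneg_right ?_ h5
        linarith

/-- the points with a small radical -/
theorem few_upper {S : Forms D} {d : ℕ} (h : S.IsIdentity d) (hd : 1 ≤ d) (hD : 3 ≤ D)
    (hfin : ∀ X : ℝ, (TrR X).Finite)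
    (hcnt : ∀ M : ℝ, 1 / 3 < M → ∃ ν C : ℝ, 0 < ν ∧ 0 < C ∧ ∀ X : ℝ, 1 ≤ X →
      ((VrR M X).ncard : ℝ) ≤ C * X ^ (2 / 3 - ν)) {δ : ℝ} (hδ : 0 < δ)
    (hδ' : δ ≤ (D : ℝ) / d / 2) {P : ℕ → ℕ → ℕ → Prop}
    (hP : ∀ a b c : ℕ, 0 < a → 0 < b → a + b = c → P a b c →
      (rad (a * b * c) : ℝ) ≤ (c : ℝ) ^ ((D : ℝ) / d - δ)) :
    ∃ ν C : ℝ, 0 < ν ∧ 0 < C ∧ ∀ X : ℝ, 1 ≤ X →
      ((HPts S P X).ncard : ℝ) ≤ C * X ^ (2 / (D : ℝ) - ν) := by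
  have hD0 : (0 : ℝ) < D := by exact_mod_cast (by omega : 0 < D)
  have hd0 : (0 : ℝ) < d := by exact_mod_cast (by omega : 0 < d)
  have hK := K5_ge h
  have hK0 : 0 < K5 S := by linarith
  have hbad1 : 1 ≤ S.bad := Nat.pos_of_ne_zero (bad_ne_zero h)
  set η : ℝ := 3 * d * δ / D with hη
  have hη0 : 0 < η := by rw [hη]; positivity
  have hη2 : η ≤ 3 / 2 := by
    rw [hη, div_le_iff₀ hD0]
    have h1 : (d : ℝ) * δ ≤ D / 2 := by
      calc (d : ℝ) * δ ≤ d * ((D : ℝ) / d / 2) := by gcongr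
        _ = D / 2 := by field_simp
    nlinarith
  set Q : ℕ := S.bad * S.A0 * (2 * S.A0 * S.bad ^ 3) with hQ
  have hQ1 : 1 ≤ Q := by
    have := A0_pos S
    have h0 : 0 < Q := by rw [hQ]; positivity
    exact h0
  have hQ0 : (0 : ℝ) < Q := by exact_mod_cast hQ1
  set K7 : ℝ := K5 S * (Q : ℝ) ^ (3 - η) with hK7
  have hK70 : 0 < K7 := by rw [hK7]; positivity
  set W : ℕ := ⌈K7 ^ (2 / η)⌉₊ + 1 with hW
  obtain ⟨ν₀, C₀, hν₀, hC₀, h0⟩ := hcnt (1 / (3 - η / 2)) (by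
    rw [div_lt_div_iff₀ (by norm_num) (by linarith)]; linarith)
  set A : ℝ → Set (ℕ × ℕ) := fun Y => VrR (1 / (3 - η / 2)) Y ∪
    ((range W ×ˢ range W : Finset (ℕ × ℕ)) : Set (ℕ × ℕ)) with hAdef
  have hAfin : ∀ Y, (A Y).Finite := fun Y =>
    ((hfin Y).subset fun p hp => hp.1).union (Finset.finite_toSet _)
  have hZ : ∀ X : ℝ, ∀ z ∈ HPts S P X, ∃ (l : Lb D (S.bad ^ 3 + 1)) (s : Bool) (p : ℕ × ℕ),
      p ∈ A (K5 S * X ^ (3 / (D : ℝ))) ∧ Rel S l (tt s p) z := by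
    rintro X ⟨x, y⟩ ⟨hxy, a, b, c, ha, hb, -, hc, hm, hX, hPP⟩
    simp only at hxy hm
    obtain ⟨l, s, p, h1, h2, h3, h4, h5, h6⟩ := core h hD hxy ha hb hc hm
    refine ⟨l, s, p, ?_, h6⟩
    have hmem : p ∈ TrR (K5 S * X ^ (3 / (D : ℝ))) := by
      refine ⟨h1, h2, h3, h4.trans ?_⟩
      refine mul_le_mul_of_nonneg_left ?_ (by linarith)
      exact Real.rpow_le_rpow (Nat.cast_nonneg _) hX (by positivity)
    by_cases hw : p.1 + p.2 < W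
    · right
      rw [Finset.mem_coe, Finset.mem_product, Finset.mem_range, Finset.mem_range]
      omega
    · left
      refine ⟨hmem, ?_⟩
      set ww : ℕ := p.1 + p.2 with hww
      have hw1 : 1 ≤ ww := by omega
      have hw0 : (0 : ℝ) < ww := by exact_mod_cast hw1
      have hw1' : (1 : ℝ) ≤ ww := by exact_mod_cast hw1
      -- `c ≤ (Q w) ^ d`
      have hcQ : c ≤ (Q * ww) ^ d := by
        calc c ≤ S.bad * (S.A0 * max x.natAbs y.natAbs) ^ d := c_le h hm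
          _ ≤ S.bad ^ d * (S.A0 * max x.natAbs y.natAbs) ^ d :=
              Nat.mul_le_mul_right _ (Nat.le_self_pow (by omega) _)
          _ = (S.bad * (S.A0 * max x.natAbs y.natAbs)) ^ d := (mul_pow _ _ _).symm
          _ ≤ (Q * ww) ^ d := by
              refine Nat.pow_le_pow_left ?_ _
              calc S.bad * (S.A0 * max x.natAbs y.natAbs) ≤
                    S.bad * (S.A0 * (2 * S.A0 * S.bad ^ 3 * ww)) :=
                    Nat.mul_le_mul_left _ (Nat.mul_le_mul_left _ h5)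
                _ = Q * ww := by rw [hQ]; ring
      have hcQ' : (c : ℝ) ≤ ((Q : ℝ) * ww) ^ (d : ℝ) := by
        rw [Real.rpow_natCast]; exact_mod_cast hcQ
      have hθ : 0 < (D : ℝ) / d - δ := by
        have : 0 < (D : ℝ) / d := by positivity
        linarith
      have hr0 : (0 : ℝ) ≤ (rad (a * b * c) : ℝ) := Nat.cast_nonneg _
      have h7 : (rad (a * b * c) : ℝ) ^ (3 / (D : ℝ)) ≤ ((Q : ℝ) * ww) ^ (3 - η) := by
        calc (rad (a * b * c) : ℝ) ^ (3 / (D : ℝ)) ≤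
              ((c : ℝ) ^ ((D : ℝ) / d - δ)) ^ (3 / (D : ℝ)) :=
              Real.rpow_le_rpow hr0 (hP a b c ha hb hc hPP) (by positivity)
          _ ≤ ((((Q : ℝ) * ww) ^ (d : ℝ)) ^ ((D : ℝ) / d - δ)) ^ (3 / (D : ℝ)) := by gcongr
          _ = ((Q : ℝ) * ww) ^ (3 - η) := by
              rw [← Real.rpow_mul (by positivity), ← Real.rpow_mul (by positivity)]
              congr 1
              rw [hη]
              field_simp
      have h8 : (rad (p.1 * p.2 * ww) : ℝ) ≤ K7 * (ww : ℝ) ^ (3 - η) := by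
        calc (rad (p.1 * p.2 * ww) : ℝ) ≤ K5 S * (rad (a * b * c) : ℝ) ^ (3 / (D : ℝ)) := h4
          _ ≤ K5 S * ((Q : ℝ) * ww) ^ (3 - η) := by gcongr
          _ = K7 * (ww : ℝ) ^ (3 - η) := by
              rw [Real.mul_rpow hQ0.le hw0.le, hK7]; ring
      have h9 : K7 ≤ (ww : ℝ) ^ (η / 2) := by
        have e1 : K7 ^ (2 / η) ≤ (ww : ℝ) := by
          refine (Nat.le_ceil _).trans ?_
          have : ⌈K7 ^ (2 / η)⌉₊ ≤ ww := by omega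
          exact_mod_cast this
        calc K7 = (K7 ^ (2 / η)) ^ (η / 2) := by
              rw [← Real.rpow_mul hK70.le, show 2 / η * (η / 2) = 1 by field_simp, Real.rpow_one]
          _ ≤ _ := Real.rpow_le_rpow (by positivity) e1 (by positivity)
      have h10 : (rad (p.1 * p.2 * ww) : ℝ) ≤ (ww : ℝ) ^ (3 - η / 2) := by
        calc (rad (p.1 * p.2 * ww) : ℝ) ≤ K7 * (ww : ℝ) ^ (3 - η) := h8
          _ ≤ (ww : ℝ) ^ (η / 2) * (ww : ℝ) ^ (3 - η) := by gcongr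
          _ = _ := by rw [← Real.rpow_add hw0]; congr 1; ring
      calc (rad (p.1 * p.2 * ww) : ℝ) ^ (1 / (3 - η / 2)) ≤
            ((ww : ℝ) ^ (3 - η / 2)) ^ (1 / (3 - η / 2)) := by
            refine Real.rpow_le_rpow (Nat.cast_nonneg _) h10 ?_
            have : 0 < 3 - η / 2 := by linarith
            positivity
        _ = (ww : ℝ) := by
            rw [← Real.rpow_mul hw0.le, mul_one_div_cancel (by linarith), Real.rpow_one]
  set ν : ℝ := min (3 * ν₀ / D) (2 / D) with hν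
  have hν0 : 0 < ν := lt_min (by positivity) (by positivity)
  have hν1 : ν ≤ 3 * ν₀ / D := min_le_left _ _
  have hν2 : ν ≤ 2 / D := min_le_right _ _
  refine ⟨ν, (Fintype.card (Lb D (S.bad ^ 3 + 1) × Bool) : ℝ) *
    (C₀ * K5 S ^ (2 / 3 - ν₀) + (W : ℝ) ^ 2) + 1, hν0, by positivity, fun X hX => ?_⟩
  have hX0 : 0 < X := by linarith
  have h1 : 1 ≤ K5 S * X ^ (3 / (D : ℝ)) := by
    have : 1 ≤ X ^ (3 / (D : ℝ)) := Real.one_le_rpow hX (by positivity)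
    nlinarith
  have h2 := h0 _ h1
  have h3 : (K5 S * X ^ (3 / (D : ℝ))) ^ (2 / 3 - ν₀) =
      K5 S ^ (2 / 3 - ν₀) * X ^ (2 / (D : ℝ) - 3 * ν₀ / D) := by
    rw [Real.mul_rpow hK0.le (by positivity), ← Real.rpow_mul hX0.le]
    congr 2
    field_simp
  have h4 := (count_gen h (hAfin _) (hZ X)).2
  have h5 : (0 : ℝ) ≤ X ^ (2 / (D : ℝ) - ν) := by positivity
  have h5' : (1 : ℝ) ≤ X ^ (2 / (D : ℝ) - ν) := Real.one_le_rpow hX (by linarith)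
  have h6 : X ^ (2 / (D : ℝ) - 3 * ν₀ / D) ≤ X ^ (2 / (D : ℝ) - ν) :=
    Real.rpow_le_rpow_of_exponent_le hX (by linarith)
  have h7 : ((A (K5 S * X ^ (3 / (D : ℝ)))).ncard : ℝ) ≤
      (C₀ * K5 S ^ (2 / 3 - ν₀) + (W : ℝ) ^ 2) * X ^ (2 / (D : ℝ) - ν) := by
    have e1 : (A (K5 S * X ^ (3 / (D : ℝ)))).ncard ≤
        (VrR (1 / (3 - η / 2)) (K5 S * X ^ (3 / (D : ℝ)))).ncard + W * W := by
      refine (Set.ncard_union_le _ _).trans ?_
      rw [Set.ncard_coe_finset, card_product, card_range]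
    have hKp : 0 ≤ C₀ * K5 S ^ (2 / 3 - ν₀) := by positivity
    calc ((A (K5 S * X ^ (3 / (D : ℝ)))).ncard : ℝ) ≤
          ((VrR (1 / (3 - η / 2)) (K5 S * X ^ (3 / (D : ℝ)))).ncard : ℝ) + W * W := by
          exact_mod_cast e1
      _ ≤ C₀ * (K5 S ^ (2 / 3 - ν₀) * X ^ (2 / (D : ℝ) - 3 * ν₀ / D)) + (W : ℝ) ^ 2 := by
          rw [← h3]
          nlinarith
      _ ≤ C₀ * K5 S ^ (2 / 3 - ν₀) * X ^ (2 / (D : ℝ) - ν) +
          (W : ℝ) ^ 2 * X ^ (2 / (D : ℝ) - ν) := by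
          have g1 : C₀ * (K5 S ^ (2 / 3 - ν₀) * X ^ (2 / (D : ℝ) - 3 * ν₀ / D)) ≤
              C₀ * K5 S ^ (2 / 3 - ν₀) * X ^ (2 / (D : ℝ) - ν) := by
            rw [← mul_assoc]
            exact mul_le_mul_of_nonneg_left h6 hKp
          have g2 : (W : ℝ) ^ 2 ≤ (W : ℝ) ^ 2 * X ^ (2 / (D : ℝ) - ν) :=
            le_mul_of_one_le_right (by positivity) h5'
          linarith
      _ = _ := by ring
  calc ((HPts S P X).ncard : ℝ) ≤ (Fintype.card (Lb D (S.bad ^ 3 + 1) × Bool) : ℝ) *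
        ((A (K5 S * X ^ (3 / (D : ℝ)))).ncard : ℝ) := by exact_mod_cast h4
    _ ≤ (Fintype.card (Lb D (S.bad ^ 3 + 1) × Bool) : ℝ) *
        ((C₀ * K5 S ^ (2 / 3 - ν₀) + (W : ℝ) ^ 2) * X ^ (2 / (D : ℝ) - ν)) :=
        mul_le_mul_of_nonneg_left h7 (Nat.cast_nonneg _)
    _ = ((Fintype.card (Lb D (S.bad ^ 3 + 1) × Bool) : ℝ) *
        (C₀ * K5 S ^ (2 / 3 - ν₀) + (W : ℝ) ^ 2)) * X ^ (2 / (D : ℝ) - ν) := by ring
    _ ≤ _ := by
        refine mul_le_mul_of_nonneg_right ?_ h5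
        linarith

/-- there are many points -/
theorem all_lower {S : Forms D} {d : ℕ} (h : S.IsIdentity d) (hD : 2 ≤ D)
    (hfin : ∀ X : ℝ, (HPts S (fun _ _ _ => True) X).Finite) :
    ∃ c₀ X₀ : ℝ, 0 < c₀ ∧ ∀ X : ℝ, X₀ ≤ X →
      c₀ * X ^ (2 / (D : ℝ)) ≤ ((HPts S (fun _ _ _ => True) X).ncard : ℝ) := by
  classical
  have hD0 : (0 : ℝ) < D := by exact_mod_cast (by omega : 0 < D)
  have hA0 : (1 : ℝ) ≤ S.A0 := by exact_mod_cast A0_pos S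
  have hbad : (0 : ℝ) < S.bad := by exact_mod_cast Nat.pos_of_ne_zero (bad_ne_zero h)
  refine ⟨((S.bad : ℝ) ^ (1 / (D : ℝ)) * S.A0)⁻¹ ^ 2 / 32,
    (S.bad : ℝ) * (32 * D * S.A0) ^ D, by positivity, fun X hX => ?_⟩
  have hX0 : 0 < X := lt_of_lt_of_le (by positivity) hX
  set Z : ℝ := (X / S.bad) ^ (1 / (D : ℝ)) with hZ
  have hZd : Z ^ D = X / S.bad := by
    rw [hZ, ← Real.rpow_natCast, ← Real.rpow_mul (by positivity), one_div_mul_cancel hD0.ne',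
      Real.rpow_one]
  have hZ1 : 32 * D * S.A0 ≤ Z := by
    have h1 : (32 * D * S.A0 : ℝ) ^ D ≤ X / S.bad := by
      rw [le_div_iff₀ hbad, mul_comm]; exact hX
    have h2 := Real.rpow_le_rpow (by positivity) h1 (show 0 ≤ 1 / (D : ℝ) by positivity)
    rwa [← Real.rpow_natCast, ← Real.rpow_mul (by positivity), mul_one_div_cancel hD0.ne',
      Real.rpow_one] at h2
  set Y : ℝ := Z / S.A0 with hY
  have hY1 : 32 * D ≤ Y := by
    rw [hY, le_div_iff₀ (by linarith)]; exact hZ1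
  have hD2 : (2 : ℝ) ≤ D := by exact_mod_cast hD
  set N : ℕ := ⌊Y⌋₊ with hN
  have hN1 : (N : ℝ) ≤ Y := Nat.floor_le (by linarith)
  have hN2 : Y / 2 ≤ (N : ℝ) := by
    have := Nat.lt_floor_add_one Y
    linarith
  set g : ℕ × ℕ → ℤ × ℤ := fun t => ((t.1 : ℤ), (t.2 : ℤ)) with hg
  have hginj : Function.Injective g := by
    rintro ⟨a, b⟩ ⟨a', b'⟩ he
    simp only [hg, Prod.mk.injEq, Nat.cast_inj] at he
    exact Prod.ext he.1 he.2
  set W : Finset (ℕ × ℕ) := (Cop N).filter fun t => ∀ i, S.L i (t.1 : ℤ) (t.2 : ℤ) ≠ 0 with hW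
  have hsub : ((W.image g : Finset (ℤ × ℤ)) : Set (ℤ × ℤ)) ⊆ HPts S (fun _ _ _ => True) X := by
    intro z hz
    rw [mem_coe, mem_image] at hz
    obtain ⟨⟨m, n⟩, ht, rfl⟩ := hz
    rw [hW, mem_filter, Cop, mem_filter, mem_product, mem_Icc, mem_Icc] at ht
    simp only at ht
    obtain ⟨⟨⟨⟨hm1, hmN⟩, hn1, hnN⟩, hco⟩, hL⟩ := ht
    have hF := F_ne_zero h hL
    obtain ⟨a, b, c, gg, σ, ha, hb, hab, hc, hgg, e0, e1, e2⟩ :=
      exists_member (F := fun j => S.F j (m : ℤ) (n : ℤ)) (hF 0) (hF 1) (hF 2) (h.sum _ _)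
    have hm : S.Member (m : ℤ) (n : ℤ) a b c := ⟨gg, σ, hgg, e0, e1, e2⟩
    refine ⟨Nat.isCoprime_iff_coprime.2 hco, a, b, c, ha, hb, hab, hc, hm, ?_, trivial⟩
    have h1 := rad_le_pow h ha hb hc hm
    have h2 : max (m : ℤ).natAbs (n : ℤ).natAbs ≤ N := by
      rw [Int.natAbs_natCast, Int.natAbs_natCast]; exact max_le hmN hnN
    have h3 : rad (a * b * c) ≤ S.bad * (S.A0 * N) ^ D := h1.trans (by gcongr)
    calc (rad (a * b * c) : ℝ) ≤ (S.bad : ℝ) * ((S.A0 : ℝ) * (N : ℝ)) ^ D := by exact_mod_cast h3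
      _ ≤ (S.bad : ℝ) * ((S.A0 : ℝ) * Y) ^ D := by gcongr
      _ = (S.bad : ℝ) * Z ^ D := by
          rw [hY, mul_div_cancel₀ _ (by linarith)]
      _ = X := by rw [hZd, mul_div_cancel₀ _ hbad.ne']
  have h1 : W.card ≤ (HPts S (fun _ _ _ => True) X).ncard := by
    have := Set.ncard_le_ncard hsub (hfin X)
    rwa [Set.ncard_coe_finset, card_image_of_injective _ hginj] at this
  have h2 : (W.card : ℝ) ≤ ((HPts S (fun _ _ _ => True) X).ncard : ℝ) := by exact_mod_cast h1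
  have h3 := card_good h hD N
  have h4 : X ^ (2 / (D : ℝ)) = ((S.bad : ℝ) ^ (1 / (D : ℝ)) * S.A0) ^ 2 * Y ^ 2 := by
    have e1 : X ^ (2 / (D : ℝ)) = (X ^ (1 / (D : ℝ))) ^ 2 := by
      rw [← Real.rpow_natCast, ← Real.rpow_mul hX0.le]
      congr 1
      push_cast
      ring
    have e2 : X ^ (1 / (D : ℝ)) = (S.bad : ℝ) ^ (1 / (D : ℝ)) * Z := by
      rw [hZ, Real.div_rpow hX0.le hbad.le, mul_div_cancel₀ _ (by positivity)]
    have e3 : Z = S.A0 * Y := by rw [hY, mul_div_cancel₀ _ (by linarith)]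
    rw [e1, e2, e3]
    ring
  have h5 : ((S.bad : ℝ) ^ (1 / (D : ℝ)) * S.A0)⁻¹ ^ 2 / 32 * X ^ (2 / (D : ℝ)) = Y ^ 2 / 32 := by
    rw [h4]
    have hne : (S.bad : ℝ) ^ (1 / (D : ℝ)) * S.A0 ≠ 0 := by positivity
    field_simp
  rw [h5]
  nlinarith

end Pool.Agent.NH51.BF
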