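import Pool.Agent.NH51.BF.Hts
import Pool.Agent.Y911.AA.Main

/-!
# Identities between split binary forms: the count of all abc-triples, from the starting files
-/

set_option autoImplicit false

namespace Pool.Agent.NH51.BF

open Filter Topology

theorem trR_eq (X : ℝ) : TrR X = Pool.Agent.Results.MP_1ea25c_nt.AlmostAllTriples.triples X := rfl

theorem vrR_eq (M X : ℝ) : VrR M X = Pool.Agent.Y911.AA.viol M X := rfl

theorem trR_finite (X : ℝ) : (TrR X).Finite := Pool.Agent.Y911.AA.triples_finite' X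

theorem trR_mono {X Y : ℝ} (h : X ≤ Y) : TrR X ⊆ TrR Y :=
  fun _ hp => ⟨hp.1, hp.2.1, hp.2.2.1, hp.2.2.2.trans h⟩

/-- the number of all triples -/
theorem trR_count : ∃ C : ℝ, 0 < C ∧ ∀ X : ℝ, 1 ≤ X →
    ((TrR X).ncard : ℝ) ≤ C * X ^ ((2 : ℝ) / 3) := by
  obtain ⟨κ, hκ, h, -⟩ := Pool.Agent.Y911.AA.main
  have h1 : ∀ᶠ X : ℝ in atTop, ((TrR X).ncard : ℝ) / X ^ ((2 : ℝ) / 3) < κ + 1 :=
    h.eventually (gt_mem_nhds (by linarith))
  obtain ⟨X₁, hX₁⟩ := eventually_atTop.1 h1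
  set X₂ : ℝ := max X₁ 1 with hX₂
  refine ⟨max (κ + 1) ((TrR X₂).ncard : ℝ), lt_of_lt_of_le (by linarith) (le_max_left _ _),
    fun X hX => ?_⟩
  have hX0 : 0 < X := by linarith
  have hp : 0 < X ^ ((2 : ℝ) / 3) := by positivity
  rcases le_total X X₂ with h2 | h2
  · have h3 : ((TrR X).ncard : ℝ) ≤ ((TrR X₂).ncard : ℝ) := by
      exact_mod_cast Set.ncard_le_ncard (trR_mono h2) (trR_finite X₂)
    have h4 : (1 : ℝ) ≤ X ^ ((2 : ℝ) / 3) := Real.one_le_rpow hX (by norm_num)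
    have h5 : ((TrR X₂).ncard : ℝ) ≤ max (κ + 1) ((TrR X₂).ncard : ℝ) := le_max_right _ _
    have h6 : (0 : ℝ) ≤ max (κ + 1) ((TrR X₂).ncard : ℝ) := le_trans (Nat.cast_nonneg _) h5
    nlinarith
  · have h3 := (hX₁ X ((le_max_left _ _).trans h2)).le
    rw [div_le_iff₀ hp] at h3
    exact h3.trans (mul_le_mul_of_nonneg_right (le_max_left _ _) hp.le)

/-- the number of the triples with a small radical -/
theorem vrR_count (M : ℝ) (hM : 1 / 3 < M) : ∃ ν C : ℝ, 0 < ν ∧ 0 < C ∧ ∀ X : ℝ, 1 ≤ X →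
    ((VrR M X).ncard : ℝ) ≤ C * X ^ (2 / 3 - ν) := by
  obtain ⟨-, -, -, h⟩ := Pool.Agent.Y911.AA.main
  exact h M hM

end Pool.Agent.NH51.BF
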