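import Pool.Agent.NH51.BF.Triple

/-!
# Identities between split binary forms: the size of the members
-/

set_option autoImplicit false

namespace Pool.Agent.NH51.BF

open Finset

variable {D : ℕ}

/-- `c` is a combination of `a` and `b` -/
def Cb (a b c : ℤ) : Prop := ∃ u v : ℤ, u * a + v * b = c

theorem Cb.symm {a b c : ℤ} (h : Cb a b c) : Cb b a c := by
  obtain ⟨u, v, h⟩ := h
  exact ⟨v, u, by rw [← h]; ring⟩

theorem Cb.mul {a b b' c c' : ℤ} (h : Cb a b c) (h' : Cb a b' c') : Cb a (b * b') (c * c') := by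
  obtain ⟨u, v, h⟩ := h
  obtain ⟨u', v', h'⟩ := h'
  exact ⟨u * (u' * a) + u * (v' * b') + u' * (v * b), v * v', by rw [← h, ← h']; ring⟩

theorem Cb.one (a : ℤ) : Cb a 1 1 := ⟨0, 1, by ring⟩

theorem Cb.pow {a b c : ℤ} (h : Cb a b c) (e : ℕ) : Cb a (b ^ e) (c ^ e) := by
  induction e with
  | zero => rw [pow_zero, pow_zero]; exact Cb.one a
  | succ e ih => rw [pow_succ, pow_succ]; exact ih.mul h

theorem Cb.prod {ι : Type} (s : Finset ι) {a : ℤ} {b c : ι → ℤ} (h : ∀ i ∈ s, Cb a (b i) (c i)) :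
    Cb a (∏ i ∈ s, b i) (∏ i ∈ s, c i) := by
  classical
  induction s using Finset.induction_on with
  | empty => rw [prod_empty, prod_empty]; exact Cb.one a
  | insert i s hi ih =>
    rw [prod_insert hi, prod_insert hi]
    exact (h i (mem_insert_self i s)).mul (ih fun j hj => h j (mem_insert_of_mem hj))

theorem cb_det (S : Forms D) (i j : Fin D) {x y : ℤ} (hxy : IsCoprime x y) :
    Cb (S.L i x y) (S.L j x y) (S.det i j) := by
  obtain ⟨a, b, hab⟩ := hxy
  refine ⟨a * S.q j - b * S.p j, b * S.p i - a * S.q i, ?_⟩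
  unfold Forms.L Forms.det
  linear_combination (S.p i * S.q j - S.p j * S.q i) * hab

/-- bound for the common divisors of the forms `0` and `1` -/
def Forms.G (S : Forms D) : ℤ :=
  S.k 0 * S.k 1 * ∏ j ∈ univ.filter (fun j => S.s j = 1),
    (∏ i ∈ univ.filter (fun i => S.s i = 0), S.det i j ^ S.e i) ^ S.e j

theorem G_ne_zero {S : Forms D} {d : ℕ} (h : S.IsIdentity d) : S.G ≠ 0 := by
  unfold Forms.G
  refine mul_ne_zero (mul_ne_zero (h.ne_zero 0) (h.ne_zero 1)) (prod_ne_zero_iff.2 fun j hj => ?_)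
  refine pow_ne_zero _ (prod_ne_zero_iff.2 fun i hi => pow_ne_zero _ (h.indep i j ?_))
  rintro rfl
  rw [mem_filter] at hi hj
  rw [hi.2] at hj
  exact absurd hj.2 (by decide)

theorem dvd_G {S : Forms D} {x y : ℤ} (hxy : IsCoprime x y) {n : ℤ} (h0 : n ∣ S.F 0 x y)
    (h1 : n ∣ S.F 1 x y) : n ∣ S.G := by
  have h2 : Cb (∏ i ∈ univ.filter (fun i => S.s i = 0), S.L i x y ^ S.e i)
      (∏ j ∈ univ.filter (fun j => S.s j = 1), S.L j x y ^ S.e j)
      (∏ j ∈ univ.filter (fun j => S.s j = 1),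
        (∏ i ∈ univ.filter (fun i => S.s i = 0), S.det i j ^ S.e i) ^ S.e j) := by
    refine Cb.prod _ fun j _ => Cb.pow (Cb.symm (Cb.prod _ fun i _ => Cb.pow (Cb.symm ?_) _)) _
    exact cb_det S i j hxy
  obtain ⟨u, v, h2⟩ := h2
  unfold Forms.G
  rw [← h2]
  unfold Forms.F at h0 h1
  obtain ⟨c0, h0⟩ := h0
  obtain ⟨c1, h1⟩ := h1
  refine ⟨S.k 1 * u * c0 + S.k 0 * v * c1, ?_⟩
  linear_combination (S.k 1 * u) * h0 + (S.k 0 * v) * h1

/-- one of the forms is large -/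
theorem exists_large {S : Forms D} {d : ℕ} (h : S.IsIdentity d) (x y : ℤ) :
    ∃ j, (max x.natAbs y.natAbs) ^ d ≤ (2 * S.A0) ^ d * (S.F j x y).natAbs := by
  classical
  set M : ℕ := max x.natAbs y.natAbs with hM
  have h1 : ∀ i i', i ≠ i' → M ≤ 2 * S.A0 * (S.L i x y).natAbs ∨
      M ≤ 2 * S.A0 * (S.L i' x y).natAbs := by
    intro i i' hii
    have h2 : M ≤ S.A0 * ((S.L i x y).natAbs + (S.L i' x y).natAbs) := M_le h hii x y
    by_contra hcon
    push Not at hcon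
    nlinarith
  have h3 : ∃ j, ∀ i, S.s i = j → M ≤ 2 * S.A0 * (S.L i x y).natAbs := by
    by_cases hall : ∀ i, M ≤ 2 * S.A0 * (S.L i x y).natAbs
    · exact ⟨0, fun i _ => hall i⟩
    · push Not at hall
      obtain ⟨i0, hi0⟩ := hall
      have : ∃ j : Fin 3, j ≠ S.s i0 := by
        rcases eq_or_ne (S.s i0) 0 with h0 | h0
        · exact ⟨1, by rw [h0]; decide⟩
        · exact ⟨0, h0.symm⟩
      obtain ⟨j, hj⟩ := this
      refine ⟨j, fun i hi => ?_⟩
      have hne : i ≠ i0 := by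
        rintro rfl
        exact hj hi.symm
      rcases h1 i i0 hne with h4 | h4
      · exact h4
      · omega
  obtain ⟨j, hj⟩ := h3
  refine ⟨j, ?_⟩
  have hk : 1 ≤ (S.k j).natAbs := Int.natAbs_pos.2 (h.ne_zero j)
  have e : (∏ i ∈ univ.filter (fun i => S.s i = j), S.L i x y ^ S.e i).natAbs =
      ∏ i ∈ univ.filter (fun i => S.s i = j), (S.L i x y ^ S.e i).natAbs :=
    map_prod Int.natAbsHom _ _
  have e2 : ∏ i ∈ univ.filter (fun i => S.s i = j), (2 * S.A0 * (S.L i x y).natAbs) ^ S.e i =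
      (2 * S.A0) ^ d * ∏ i ∈ univ.filter (fun i => S.s i = j), (S.L i x y ^ S.e i).natAbs := by
    rw [← h.degree j, ← prod_pow_eq_pow_sum, ← prod_mul_distrib]
    refine prod_congr rfl fun i _ => ?_
    rw [mul_pow, Int.natAbs_pow]
  calc M ^ d = ∏ i ∈ univ.filter (fun i => S.s i = j), M ^ S.e i := by
        rw [prod_pow_eq_pow_sum, h.degree j]
    _ ≤ ∏ i ∈ univ.filter (fun i => S.s i = j), (2 * S.A0 * (S.L i x y).natAbs) ^ S.e i :=
        prod_le_prod' fun i hi => Nat.pow_le_pow_left (hj i (mem_filter.1 hi).2) _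
    _ = (2 * S.A0) ^ d * (∏ i ∈ univ.filter (fun i => S.s i = j), S.L i x y ^ S.e i).natAbs := by
        rw [e2, e]
    _ ≤ (2 * S.A0) ^ d * (S.F j x y).natAbs := by
        refine Nat.mul_le_mul_left _ ?_
        unfold Forms.F
        rw [Int.natAbs_mul]
        exact Nat.le_mul_of_pos_left _ hk

/-- the members are large -/
theorem M_pow_le {S : Forms D} {d : ℕ} (h : S.IsIdentity d) {x y : ℤ} (hxy : IsCoprime x y)
    {a b c : ℕ} (hc : a + b = c) (hm : S.Member x y a b c) :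
    (max x.natAbs y.natAbs) ^ d ≤ (2 * S.A0) ^ d * S.G.natAbs * c := by
  obtain ⟨j, hj⟩ := exists_large h x y
  obtain ⟨g, σ, hg, h0, h1, h2⟩ := hm
  have hF : ∀ j, ∃ m, m ≤ c ∧ (S.F j x y).natAbs = g * m := by
    intro j
    obtain ⟨l, rfl⟩ := σ.surjective j
    fin_cases l
    · exact ⟨a, by omega, h0⟩
    · exact ⟨b, by omega, h1⟩
    · exact ⟨c, le_refl _, h2⟩
  have hg1 : g ≤ S.G.natAbs := by
    refine Nat.le_of_dvd (Int.natAbs_pos.2 (G_ne_zero h)) (Int.natCast_dvd.1 (dvd_G hxy ?_ ?_))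
    · obtain ⟨m, -, hm⟩ := hF 0
      rw [Int.natCast_dvd, hm]; exact Dvd.intro _ rfl
    · obtain ⟨m, -, hm⟩ := hF 1
      rw [Int.natCast_dvd, hm]; exact Dvd.intro _ rfl
  obtain ⟨m, hmc, hFm⟩ := hF j
  calc (max x.natAbs y.natAbs) ^ d ≤ (2 * S.A0) ^ d * (S.F j x y).natAbs := hj
    _ = (2 * S.A0) ^ d * (g * m) := by rw [hFm]
    _ ≤ (2 * S.A0) ^ d * (S.G.natAbs * c) := by gcongr
    _ = _ := by ring

/-- the trivial upper bound for the radical -/
theorem rad_le_pow {S : Forms D} {d : ℕ} (h : S.IsIdentity d) {x y : ℤ} {a b c : ℕ} (ha : 0 < a)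
    (hb : 0 < b) (hc : a + b = c) (hm : S.Member x y a b c) :
    rad (a * b * c) ≤ S.bad * (S.A0 * max x.natAbs y.natAbs) ^ D := by
  classical
  have hL := L_ne_zero h ha hb (show 0 < c by omega) hm
  obtain ⟨g, σ, hg, h0, h1, h2⟩ := hm
  set M : ℕ := max x.natAbs y.natAbs with hM
  have e : ∀ j, (S.F j x y).natAbs = (S.k j).natAbs *
      ∏ i ∈ univ.filter (fun i => S.s i = j), (S.L i x y).natAbs ^ S.e i := by
    intro j
    have e1 : (∏ i ∈ univ.filter (fun i => S.s i = j), S.L i x y ^ S.e i).natAbs =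
        ∏ i ∈ univ.filter (fun i => S.s i = j), (S.L i x y ^ S.e i).natAbs :=
      map_prod Int.natAbsHom _ _
    unfold Forms.F
    rw [Int.natAbs_mul, e1]
    congr 1
    refine prod_congr rfl fun i _ => ?_
    rw [Int.natAbs_pow]
  have hdv : ∀ j : Fin 3, ∀ m, (S.F j x y).natAbs = g * m → ∀ p : ℕ, p.Prime → p ∣ m →
      p ∣ S.bad * ∏ i, (S.L i x y).natAbs := by
    intro j m hm p hp hpm
    have h3 : p ∣ (S.F j x y).natAbs := by rw [hm]; exact Dvd.dvd.mul_left hpm g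
    rw [e j] at h3
    rcases hp.dvd_mul.1 h3 with h4 | h4
    · exact Dvd.dvd.mul_right (h4.trans (k_dvd_bad S j)) _
    · obtain ⟨i, -, h5⟩ := (Prime.dvd_finset_prod_iff hp.prime _).1 h4
      exact Dvd.dvd.mul_left ((hp.dvd_of_dvd_pow h5).trans
        (dvd_prod_of_mem (fun i => (S.L i x y).natAbs) (mem_univ i))) _
  have hne : S.bad * ∏ i, (S.L i x y).natAbs ≠ 0 :=
    mul_ne_zero (bad_ne_zero h) (prod_ne_zero_iff.2 fun i _ => Int.natAbs_ne_zero.2 (hL i))
  have hsub : (a * b * c).primeFactors ⊆ (S.bad * ∏ i, (S.L i x y).natAbs).primeFactors := by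
    intro p hp
    rw [Nat.mem_primeFactors] at hp ⊢
    obtain ⟨hpr, hdvd, -⟩ := hp
    refine ⟨hpr, ?_, hne⟩
    rcases hpr.dvd_mul.1 hdvd with h3 | h3
    · rcases hpr.dvd_mul.1 h3 with h4 | h4
      · exact hdv _ _ h0 p hpr h4
      · exact hdv _ _ h1 p hpr h4
    · exact hdv _ _ h2 p hpr h3
  have h3 : rad (a * b * c) ≤ rad (S.bad * ∏ i, (S.L i x y).natAbs) := by
    unfold rad
    exact prod_le_prod_of_subset_of_one_le' hsub
      (fun p hp _ => (Nat.prime_of_mem_primeFactors hp).one_le)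
  calc rad (a * b * c) ≤ rad (S.bad * ∏ i, (S.L i x y).natAbs) := h3
    _ ≤ S.bad * ∏ i, (S.L i x y).natAbs := rad_le hne
    _ ≤ S.bad * ∏ i : Fin D, (S.A0 * M) := by
        refine Nat.mul_le_mul_left _ (prod_le_prod' fun i _ => ?_)
        exact L_le S i (le_max_left _ _) (le_max_right _ _)
    _ = S.bad * (S.A0 * M) ^ D := by rw [prod_const, card_univ, Fintype.card_fin]

end Pool.Agent.NH51.BF
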