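import Pool.Agent.NH51.BF.Defs

/-!
# Identities between split binary forms: radicals of the linear factors
-/

set_option autoImplicit false

namespace Pool.Agent.NH51.BF

open Finset

variable {D : ℕ}

/-- the radical -/
def rad (n : ℕ) : ℕ := ∏ p ∈ n.primeFactors, p

theorem rad_pos (n : ℕ) : 0 < rad n :=
  Finset.prod_pos fun _ hp => (Nat.prime_of_mem_primeFactors hp).pos

theorem rad_le {n : ℕ} (hn : n ≠ 0) : rad n ≤ n :=
  Nat.le_of_dvd (Nat.pos_of_ne_zero hn) (Nat.prod_primeFactors_dvd n)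

/-- three small values -/
theorem three_small (r : Fin D → ℕ) (hr : ∀ i, 1 ≤ r i) (hD : 3 ≤ D) :
    ∃ i j k : Fin D, i ≠ j ∧ j ≠ k ∧ i ≠ k ∧ (r i * r j * r k) ^ D ≤ (∏ l, r l) ^ 3 := by
  classical
  have c0 : (univ : Finset (Fin D)).card = D := by rw [card_univ, Fintype.card_fin]
  obtain ⟨i, -, hi⟩ := exists_min_image (univ : Finset (Fin D)) r
    (card_pos.1 (by omega))
  have c1 : (univ.erase i).card = D - 1 := by rw [card_erase_of_mem (mem_univ _), c0]
  obtain ⟨j, hj0, hj⟩ := exists_min_image (univ.erase i) r (card_pos.1 (by omega))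
  have c2 : ((univ.erase i).erase j).card = D - 2 := by rw [card_erase_of_mem hj0, c1]; omega
  obtain ⟨k, hk0, hk⟩ := exists_min_image ((univ.erase i).erase j) r (card_pos.1 (by omega))
  have c3 : (((univ.erase i).erase j).erase k).card = D - 3 := by
    rw [card_erase_of_mem hk0, c2]; omega
  have hij : i ≠ j := (ne_of_mem_erase hj0).symm
  have hjk : j ≠ k := (ne_of_mem_erase hk0).symm
  have hk1 := mem_of_mem_erase hk0
  have hik : i ≠ k := (ne_of_mem_erase hk1).symm
  refine ⟨i, j, k, hij, hjk, hik, ?_⟩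
  have e : ∏ l, r l = r i * r j * r k * ∏ l ∈ ((univ.erase i).erase j).erase k, r l := by
    rw [← mul_prod_erase univ r (mem_univ i), ← mul_prod_erase (univ.erase i) r hj0,
      ← mul_prod_erase ((univ.erase i).erase j) r hk0]
    ring
  have h1 : (r i * r j * r k) ^ (D - 3) ≤
      ∏ l ∈ ((univ.erase i).erase j).erase k, r l ^ 3 := by
    rw [← c3, ← prod_const]
    refine prod_le_prod' fun l hl => ?_
    have hl1 := mem_of_mem_erase hl
    have hkl := hk l hl1
    have hik' := hi k (mem_univ _)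
    have hjk' := hj k hk1
    calc r i * r j * r k ≤ r l * r l * r l := by
          gcongr
          · exact hik'.trans hkl
          · exact hjk'.trans hkl
      _ = r l ^ 3 := by ring
  rw [prod_pow] at h1
  calc (r i * r j * r k) ^ D = (r i * r j * r k) ^ 3 * (r i * r j * r k) ^ (D - 3) := by
        rw [← pow_add]; congr 1; omega
    _ ≤ (r i * r j * r k) ^ 3 * (∏ l ∈ ((univ.erase i).erase j).erase k, r l) ^ 3 :=
        Nat.mul_le_mul_left _ h1
    _ = _ := by rw [e, mul_pow (r i * r j * r k)]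

/-- the determinants -/
def Forms.det (S : Forms D) (i j : Fin D) : ℤ := S.p i * S.q j - S.p j * S.q i

theorem det_x (S : Forms D) (i j : Fin D) (x y : ℤ) :
    S.det i j * x = S.q j * S.L i x y - S.q i * S.L j x y := by
  unfold Forms.det Forms.L; ring

theorem det_y (S : Forms D) (i j : Fin D) (x y : ℤ) :
    S.det i j * y = S.p i * S.L j x y - S.p j * S.L i x y := by
  unfold Forms.det Forms.L; ring

theorem dvd_of_mul {n z x y : ℤ} (hxy : IsCoprime x y) (h1 : n ∣ z * x) (h2 : n ∣ z * y) : n ∣ z := by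
  obtain ⟨a, b, hab⟩ := hxy
  have h3 : z = a * (z * x) + b * (z * y) := by
    linear_combination (-z) * hab
  rw [h3]
  exact dvd_add (Dvd.dvd.mul_left h1 a) (Dvd.dvd.mul_left h2 b)

/-- a common divisor of two linear forms at coprime arguments divides the determinant -/
theorem dvd_det (S : Forms D) {i j : Fin D} {x y n : ℤ} (hxy : IsCoprime x y)
    (hi : n ∣ S.L i x y) (hj : n ∣ S.L j x y) : n ∣ S.det i j := by
  refine dvd_of_mul hxy ?_ ?_
  · rw [det_x]
    exact dvd_sub (Dvd.dvd.mul_left hi _) (Dvd.dvd.mul_left hj _)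
  · rw [det_y]
    exact dvd_sub (Dvd.dvd.mul_left hj _) (Dvd.dvd.mul_left hi _)

/-- the bad primes -/
def Forms.bad (S : Forms D) : ℕ :=
  (S.k 0).natAbs * (S.k 1).natAbs * (S.k 2).natAbs *
    ∏ ij : Fin D × Fin D, if ij.1 = ij.2 then 1 else (S.det ij.1 ij.2).natAbs

theorem bad_ne_zero {S : Forms D} {d : ℕ} (h : S.IsIdentity d) : S.bad ≠ 0 := by
  unfold Forms.bad
  refine mul_ne_zero (mul_ne_zero (mul_ne_zero ?_ ?_) ?_) (prod_ne_zero_iff.2 fun ij _ => ?_)
  · exact Int.natAbs_ne_zero.2 (h.ne_zero 0)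
  · exact Int.natAbs_ne_zero.2 (h.ne_zero 1)
  · exact Int.natAbs_ne_zero.2 (h.ne_zero 2)
  · split_ifs with hij
    · exact one_ne_zero
    · exact Int.natAbs_ne_zero.2 (h.indep _ _ hij)

theorem det_dvd_bad (S : Forms D) {i j : Fin D} (hij : i ≠ j) : (S.det i j).natAbs ∣ S.bad := by
  unfold Forms.bad
  refine Dvd.dvd.mul_left ?_ _
  have := dvd_prod_of_mem (fun ij : Fin D × Fin D =>
    if ij.1 = ij.2 then 1 else (S.det ij.1 ij.2).natAbs) (mem_univ (i, j))
  simpa [hij] using this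

theorem k_dvd_bad (S : Forms D) (j : Fin 3) : (S.k j).natAbs ∣ S.bad := by
  unfold Forms.bad
  refine Dvd.dvd.mul_right ?_ _
  fin_cases j
  · exact Dvd.dvd.mul_right (Dvd.intro _ rfl) _
  · exact Dvd.dvd.mul_right (Dvd.intro_left _ rfl) _
  · exact Dvd.intro_left _ rfl

/-- a prime that is not bad and divides the form `j` divides one of its linear factors -/
theorem exists_factor {S : Forms D} {x y : ℤ} {p : ℕ} (hp : p.Prime) (hb : ¬ p ∣ S.bad)
    {j : Fin 3} (h : (p : ℤ) ∣ S.F j x y) : ∃ i, S.s i = j ∧ (p : ℤ) ∣ S.L i x y := by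
  have hp' : Prime (p : ℤ) := Nat.prime_iff_prime_int.1 hp
  unfold Forms.F at h
  rcases hp'.dvd_or_dvd h with h1 | h1
  · exact absurd ((Int.natCast_dvd.1 h1).trans (k_dvd_bad S j)) hb
  · obtain ⟨i, hi, h2⟩ := (Prime.dvd_finset_prod_iff hp' _).1 h1
    exact ⟨i, (mem_filter.1 hi).2, hp'.dvd_of_dvd_pow h2⟩

theorem not_two {S : Forms D} {x y : ℤ} (hxy : IsCoprime x y) {p : ℕ} (hb : ¬ p ∣ S.bad)
    {i j : Fin D} (hij : i ≠ j) (hi : (p : ℤ) ∣ S.L i x y) (hj : (p : ℤ) ∣ S.L j x y) : False :=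
  hb ((Int.natCast_dvd.1 (dvd_det S hxy hi hj)).trans (det_dvd_bad S hij))

/-- the product of the radicals of the linear factors -/
theorem rad_prod {S : Forms D} {d : ℕ} (h : S.IsIdentity d) {x y : ℤ} (hxy : IsCoprime x y)
    {a b c : ℕ} (ha : 0 < a) (hb : 0 < b) (hc : 0 < c) (hm : S.Member x y a b c) :
    ∏ i, rad (S.L i x y).natAbs ≤ S.bad ^ D * rad (a * b * c) := by
  classical
  obtain ⟨g, σ, hg, h0, h1, h2⟩ := hm
  have hbad := bad_ne_zero h
  -- all forms are multiples of `g`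
  have hF : ∀ j, ∃ m, (m = a ∨ m = b ∨ m = c) ∧ (S.F j x y).natAbs = g * m := by
    intro j
    obtain ⟨l, rfl⟩ := σ.surjective j
    fin_cases l
    · exact ⟨a, Or.inl rfl, h0⟩
    · exact ⟨b, Or.inr (Or.inl rfl), h1⟩
    · exact ⟨c, Or.inr (Or.inr rfl), h2⟩
  set P : Fin D → Finset ℕ := fun i => (S.L i x y).natAbs.primeFactors \ S.bad.primeFactors with hP
  have hPm : ∀ i, ∀ p ∈ P i, p.Prime ∧ (p : ℤ) ∣ S.L i x y ∧ ¬ p ∣ S.bad := by
    intro i p hp
    rw [hP] at hp
    simp only [mem_sdiff, Nat.mem_primeFactors, not_and, ne_eq] at hp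
    obtain ⟨⟨h3, h4, h5⟩, h6⟩ := hp
    refine ⟨h3, Int.natCast_dvd.2 h4, fun h7 => ?_⟩
    exact h6 h3 h7 hbad
  have hdisj : ∀ i ∈ (univ : Finset (Fin D)), ∀ j ∈ (univ : Finset (Fin D)), i ≠ j →
      Disjoint (P i) (P j) := by
    intro i _ j _ hij
    rw [Finset.disjoint_left]
    intro p hp hp'
    exact not_two hxy (hPm i p hp).2.2 hij (hPm i p hp).2.1 (hPm j p hp').2.1
  have hsub : (univ : Finset (Fin D)).biUnion P ⊆ (a * b * c).primeFactors := by
    intro p hp
    obtain ⟨i, -, hpi⟩ := mem_biUnion.1 hp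
    obtain ⟨hpr, hpL, hpb⟩ := hPm i p hpi
    have habc : a * b * c ≠ 0 := by positivity
    rw [Nat.mem_primeFactors]
    refine ⟨hpr, ?_, habc⟩
    have hpF : (p : ℤ) ∣ S.F (S.s i) x y := by
      unfold Forms.F
      refine Dvd.dvd.mul_left ?_ _
      have h10 : S.L i x y ^ S.e i ∣
          ∏ i' ∈ univ.filter (fun i' => S.s i' = S.s i), S.L i' x y ^ S.e i' :=
        dvd_prod_of_mem (fun i' => S.L i' x y ^ S.e i') (mem_filter.2 ⟨mem_univ i, rfl⟩)
      exact (hpL.trans (dvd_pow_self _ (by have := h.one_le i; omega))).trans h10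
    obtain ⟨m, hm, hFm⟩ := hF (S.s i)
    have h3 : p ∣ g * m := by rw [← hFm]; exact Int.natCast_dvd.1 hpF
    rcases hpr.dvd_mul.1 h3 with h4 | h4
    · exfalso
      have h5 : ∀ j, (p : ℤ) ∣ S.F j x y := by
        intro j
        obtain ⟨m', -, hFm'⟩ := hF j
        rw [Int.natCast_dvd, hFm']
        exact Dvd.dvd.mul_right h4 _
      obtain ⟨i0, hi0, hL0⟩ := exists_factor hpr hpb (h5 0)
      obtain ⟨i1, hi1, hL1⟩ := exists_factor hpr hpb (h5 1)
      have hne : i0 ≠ i1 := by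
        rintro rfl
        rw [hi0] at hi1
        exact absurd hi1 (by decide)
      exact not_two hxy hpb hne hL0 hL1
    · rcases hm with rfl | rfl | rfl
      · exact Dvd.dvd.mul_right (Dvd.dvd.mul_right h4 _) _
      · exact Dvd.dvd.mul_right (Dvd.dvd.mul_left h4 _) _
      · exact Dvd.dvd.mul_left h4 _
  have h7 : ∏ i, ∏ p ∈ P i, p ≤ rad (a * b * c) := by
    rw [← prod_biUnion (fun i _ j _ hij => hdisj i (mem_univ _) j (mem_univ _) hij)]
    exact prod_le_prod_of_subset_of_one_le' hsub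
      (fun p hp _ => (Nat.prime_of_mem_primeFactors hp).one_le)
  have h8 : ∀ i, rad (S.L i x y).natAbs ≤ S.bad * ∏ p ∈ P i, p := by
    intro i
    have h9 : (S.L i x y).natAbs.primeFactors ⊆ S.bad.primeFactors ∪ P i := by
      intro p hp
      rw [mem_union]
      by_cases h10 : p ∈ S.bad.primeFactors
      · exact Or.inl h10
      · exact Or.inr (mem_sdiff.2 ⟨hp, h10⟩)
    have h11 : Disjoint S.bad.primeFactors (P i) := by
      rw [hP]
      exact disjoint_sdiff
    calc rad (S.L i x y).natAbs ≤ ∏ p ∈ S.bad.primeFactors ∪ P i, p := by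
          refine prod_le_prod_of_subset_of_one_le' h9 (fun p hp _ => ?_)
          rcases mem_union.1 hp with hp | hp
          · exact (Nat.prime_of_mem_primeFactors hp).one_le
          · exact (hPm i p hp).1.one_le
      _ = rad S.bad * ∏ p ∈ P i, p := prod_union h11
      _ ≤ S.bad * ∏ p ∈ P i, p := Nat.mul_le_mul_right _ (rad_le hbad)
  calc ∏ i, rad (S.L i x y).natAbs ≤ ∏ i : Fin D, (S.bad * ∏ p ∈ P i, p) :=
        prod_le_prod' fun i _ => h8 i
    _ = S.bad ^ D * ∏ i, ∏ p ∈ P i, p := by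
        rw [prod_mul_distrib, prod_const, card_univ, Fintype.card_fin]
    _ ≤ _ := Nat.mul_le_mul_left _ h7

end Pool.Agent.NH51.BF
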