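import Pool.Agent.NH51.BF.Rad

/-!
# Identities between split binary forms: an abc-triple from three linear forms
-/

set_option autoImplicit false

namespace Pool.Agent.NH51.BF

open Finset

variable {D : ℕ}

/-- plus or minus a member of a triple -/
def val (s : Fin 3 × Bool) (t : ℕ × ℕ × ℕ) : ℤ :=
  (if s.2 then 1 else -1) * ((if s.1 = 0 then t.1 else if s.1 = 1 then t.2.1 else t.2.2 : ℕ) : ℤ)

theorem exists_sign (z : ℤ) : ∃ s : Bool, z = (if s then 1 else -1) * (z.natAbs : ℤ) := by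
  rcases Int.natAbs_eq z with h | h
  · exact ⟨true, by simpa using h⟩
  · exact ⟨false, by simpa using h⟩

theorem val_zero (s : Bool) (t : ℕ × ℕ × ℕ) :
    val (0, s) t = (if s then 1 else -1) * (t.1 : ℤ) := rfl

theorem val_one (s : Bool) (t : ℕ × ℕ × ℕ) :
    val (1, s) t = (if s then 1 else -1) * (t.2.1 : ℤ) := rfl

theorem val_two (s : Bool) (t : ℕ × ℕ × ℕ) :
    val (2, s) t = (if s then 1 else -1) * (t.2.2 : ℤ) := rfl

/-- three nonzero integers of sum zero give a triple -/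
theorem exists_triple {A B C : ℤ} (hA : A ≠ 0) (hB : B ≠ 0) (hC : C ≠ 0) (h0 : A + B + C = 0) :
    ∃ (t : ℕ × ℕ × ℕ) (h : ℕ) (s₁ s₂ : Fin 3 × Bool), 0 < h ∧ (h : ℤ) ∣ A ∧ (h : ℤ) ∣ B ∧
      0 < t.1 ∧ 0 < t.2.1 ∧ Nat.Coprime t.1 t.2.1 ∧ t.1 + t.2.1 = t.2.2 ∧
      A = h * val s₁ t ∧ B = h * val s₂ t ∧ t.1 * t.2.1 * t.2.2 ∣ A.natAbs * B.natAbs * C.natAbs ∧
      A.natAbs ≤ t.2.2 * h ∧ B.natAbs ≤ t.2.2 * h ∧ t.2.2 ≤ A.natAbs + B.natAbs := by
  have hg : 0 < Int.gcd A B := Int.gcd_pos_of_ne_zero_left B hA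
  obtain ⟨g, A', B', hg0, hco, hA', hB'⟩ := Int.exists_gcd_one' hg
  have hg1 : (g : ℤ) ≠ 0 := by exact_mod_cast hg0.ne'
  have hA0 : A' ≠ 0 := by rintro rfl; simp at hA'; exact hA hA'
  have hB0 : B' ≠ 0 := by rintro rfl; simp at hB'; exact hB hB'
  have hC' : C = -(A' + B') * g := by rw [hA', hB'] at h0; linarith
  have hC0 : A' + B' ≠ 0 := by
    intro h; rw [h] at hC'; simp at hC'; exact hC hC'
  obtain ⟨sA, hsA⟩ := exists_sign A'
  obtain ⟨sB, hsB⟩ := exists_sign B'
  have nA : A.natAbs = A'.natAbs * g := by rw [hA', Int.natAbs_mul, Int.natAbs_natCast]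
  have nB : B.natAbs = B'.natAbs * g := by rw [hB', Int.natAbs_mul, Int.natAbs_natCast]
  have nC : C.natAbs = (A' + B').natAbs * g := by
    rw [hC', Int.natAbs_mul, Int.natAbs_natCast, Int.natAbs_neg]
  have cAB : Nat.Coprime A'.natAbs B'.natAbs := hco
  have cAC : Nat.Coprime A'.natAbs (A' + B').natAbs := by
    have h1 : IsCoprime A' B' := Int.isCoprime_iff_gcd_eq_one.2 hco
    have h2 : IsCoprime A' (A' + B') := by
      have := (IsCoprime.add_mul_left_right_iff (x := A') (y := B') (z := 1)).2 h1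
      rwa [mul_one, add_comm] at this
    exact Int.isCoprime_iff_gcd_eq_one.1 h2
  have cBC : Nat.Coprime B'.natAbs (A' + B').natAbs := by
    have h1 : IsCoprime B' A' := (Int.isCoprime_iff_gcd_eq_one.2 hco).symm
    have h2 : IsCoprime B' (A' + B') := by
      have := (IsCoprime.add_mul_left_right_iff (x := B') (y := A') (z := 1)).2 h1
      rwa [mul_one] at this
    exact Int.isCoprime_iff_gcd_eq_one.1 h2
  have pA : 0 < A'.natAbs := Int.natAbs_pos.2 hA0
  have pB : 0 < B'.natAbs := Int.natAbs_pos.2 hB0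
  have pC : 0 < (A' + B').natAbs := Int.natAbs_pos.2 hC0
  have hdvd : A'.natAbs * B'.natAbs * (A' + B').natAbs ∣ A.natAbs * B.natAbs * C.natAbs := by
    rw [nA, nB, nC]
    exact ⟨g ^ 3, by ring⟩
  have dA : (g : ℤ) ∣ A := ⟨A', by rw [hA']; ring⟩
  have dB : (g : ℤ) ∣ B := ⟨B', by rw [hB']; ring⟩
  have leA : A'.natAbs ≤ A.natAbs := by rw [nA]; exact Nat.le_mul_of_pos_right _ hg0
  have leB : B'.natAbs ≤ B.natAbs := by rw [nB]; exact Nat.le_mul_of_pos_right _ hg0
  have htri : A'.natAbs + B'.natAbs = (A' + B').natAbs ∨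
      A'.natAbs + (A' + B').natAbs = B'.natAbs ∨ B'.natAbs + (A' + B').natAbs = A'.natAbs := by
    omega
  rcases htri with h | h | h
  · refine ⟨(A'.natAbs, B'.natAbs, (A' + B').natAbs), g, (0, sA), (1, sB), hg0, dA, dB, pA, pB, cAB,
      h, ?_, ?_, hdvd, ?_, ?_, ?_⟩
    · rw [val_zero, ← hsA, hA', mul_comm]
    · rw [val_one, ← hsB, hB', mul_comm]
    · rw [nA]; exact Nat.mul_le_mul_right _ (by simp only; omega)
    · rw [nB]; exact Nat.mul_le_mul_right _ (by simp only; omega)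
    · simp only; omega
  · refine ⟨(A'.natAbs, (A' + B').natAbs, B'.natAbs), g, (0, sA), (2, sB), hg0, dA, dB, pA, pC, cAC,
      h, ?_, ?_, ?_, ?_, ?_, ?_⟩
    · rw [val_zero, ← hsA, hA', mul_comm]
    · rw [val_two, ← hsB, hB', mul_comm]
    · simp only
      rw [show A'.natAbs * (A' + B').natAbs * B'.natAbs =
        A'.natAbs * B'.natAbs * (A' + B').natAbs by ring]
      exact hdvd
    · rw [nA]; exact Nat.mul_le_mul_right _ (by simp only; omega)
    · rw [nB]
    · simp only; omega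
  · refine ⟨(B'.natAbs, (A' + B').natAbs, A'.natAbs), g, (2, sA), (0, sB), hg0, dA, dB, pB, pC, cBC,
      h, ?_, ?_, ?_, ?_, ?_, ?_⟩
    · rw [val_two, ← hsA, hA', mul_comm]
    · rw [val_zero, ← hsB, hB', mul_comm]
    · simp only
      rw [show B'.natAbs * (A' + B').natAbs * A'.natAbs =
        A'.natAbs * B'.natAbs * (A' + B').natAbs by ring]
      exact hdvd
    · rw [nA]
    · rw [nB]; exact Nat.mul_le_mul_right _ (by simp only; omega)
    · simp only; omega

theorem rad_dvd_le {m n : ℕ} (h : m ∣ n) (hn : n ≠ 0) : rad m ≤ rad n := by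
  unfold rad
  exact prod_le_prod_of_subset_of_one_le' (Nat.primeFactors_mono h hn)
    (fun p hp _ => (Nat.prime_of_mem_primeFactors hp).one_le)

theorem rad_mul_le (m n : ℕ) : rad (m * n) ≤ rad m * rad n := by
  rcases eq_or_ne m 0 with rfl | hm
  · rw [zero_mul]
    unfold rad
    simp only [Nat.primeFactors_zero, prod_empty, one_mul]
    exact rad_pos n
  rcases eq_or_ne n 0 with rfl | hn
  · rw [mul_zero]
    unfold rad
    simp only [Nat.primeFactors_zero, prod_empty, mul_one]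
    exact rad_pos m
  unfold rad
  rw [Nat.primeFactors_mul hm hn, ← prod_union_inter]
  exact Nat.le_mul_of_pos_right _ (prod_pos fun p hp =>
    (Nat.prime_of_mem_primeFactors (mem_inter.1 hp).1).pos)

/-- bound for the coefficients -/
def Forms.A0 (S : Forms D) : ℕ := ∑ i, ((S.p i).natAbs + (S.q i).natAbs) + 1

theorem coeff_le (S : Forms D) (i : Fin D) : (S.p i).natAbs + (S.q i).natAbs ≤ S.A0 := by
  unfold Forms.A0
  have := single_le_sum (f := fun i => (S.p i).natAbs + (S.q i).natAbs)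
    (fun _ _ => Nat.zero_le _) (mem_univ i)
  omega

theorem A0_pos (S : Forms D) : 0 < S.A0 := Nat.succ_pos _

theorem L_le (S : Forms D) (i : Fin D) {x y : ℤ} {M : ℕ} (hx : x.natAbs ≤ M) (hy : y.natAbs ≤ M) :
    (S.L i x y).natAbs ≤ S.A0 * M := by
  calc (S.L i x y).natAbs ≤ (S.p i * x).natAbs + (S.q i * y).natAbs := Int.natAbs_add_le _ _
    _ = (S.p i).natAbs * x.natAbs + (S.q i).natAbs * y.natAbs := by
        rw [Int.natAbs_mul, Int.natAbs_mul]
    _ ≤ (S.p i).natAbs * M + (S.q i).natAbs * M := by gcongr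
    _ = ((S.p i).natAbs + (S.q i).natAbs) * M := by ring
    _ ≤ S.A0 * M := Nat.mul_le_mul_right _ (coeff_le S i)

theorem k_le {S : Forms D} {d : ℕ} (h : S.IsIdentity d) (j : Fin 3) : (S.k j).natAbs ≤ S.bad :=
  Nat.le_of_dvd (Nat.pos_of_ne_zero (bad_ne_zero h)) (k_dvd_bad S j)

theorem det_le {S : Forms D} {d : ℕ} (h : S.IsIdentity d) {i j : Fin D} (hij : i ≠ j) :
    (S.det i j).natAbs ≤ S.bad :=
  Nat.le_of_dvd (Nat.pos_of_ne_zero (bad_ne_zero h)) (det_dvd_bad S hij)

theorem F_le {S : Forms D} {d : ℕ} (h : S.IsIdentity d) (j : Fin 3) {x y : ℤ} {M : ℕ}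
    (hx : x.natAbs ≤ M) (hy : y.natAbs ≤ M) : (S.F j x y).natAbs ≤ S.bad * (S.A0 * M) ^ d := by
  unfold Forms.F
  have e : (∏ i ∈ univ.filter (fun i => S.s i = j), S.L i x y ^ S.e i).natAbs =
      ∏ i ∈ univ.filter (fun i => S.s i = j), (S.L i x y ^ S.e i).natAbs :=
    map_prod Int.natAbsHom _ _
  rw [Int.natAbs_mul, e]
  refine Nat.mul_le_mul (k_le h j) ?_
  rw [← h.degree j, ← prod_pow_eq_pow_sum]
  refine prod_le_prod' fun i _ => ?_
  rw [Int.natAbs_pow]
  exact Nat.pow_le_pow_left (L_le S i hx hy) _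

theorem M_le {S : Forms D} {d : ℕ} (h : S.IsIdentity d) {i j : Fin D} (hij : i ≠ j) (x y : ℤ) :
    max x.natAbs y.natAbs ≤ S.A0 * ((S.L i x y).natAbs + (S.L j x y).natAbs) := by
  have hd : 1 ≤ (S.det i j).natAbs := Int.natAbs_pos.2 (h.indep i j hij)
  have hi := coeff_le S i
  have hj := coeff_le S j
  refine max_le ?_ ?_
  · have h1 := congrArg Int.natAbs (det_x S i j x y)
    rw [Int.natAbs_mul] at h1
    calc x.natAbs ≤ (S.det i j).natAbs * x.natAbs := Nat.le_mul_of_pos_left _ hd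
      _ = (S.q j * S.L i x y - S.q i * S.L j x y).natAbs := h1
      _ ≤ (S.q j * S.L i x y).natAbs + (S.q i * S.L j x y).natAbs := Int.natAbs_sub_le _ _
      _ = (S.q j).natAbs * (S.L i x y).natAbs + (S.q i).natAbs * (S.L j x y).natAbs := by
          rw [Int.natAbs_mul, Int.natAbs_mul]
      _ ≤ S.A0 * (S.L i x y).natAbs + S.A0 * (S.L j x y).natAbs := by
          gcongr <;> omega
      _ = _ := by ring
  · have h1 := congrArg Int.natAbs (det_y S i j x y)
    rw [Int.natAbs_mul] at h1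
    calc y.natAbs ≤ (S.det i j).natAbs * y.natAbs := Nat.le_mul_of_pos_left _ hd
      _ = (S.p i * S.L j x y - S.p j * S.L i x y).natAbs := h1
      _ ≤ (S.p i * S.L j x y).natAbs + (S.p j * S.L i x y).natAbs := Int.natAbs_sub_le _ _
      _ = (S.p i).natAbs * (S.L j x y).natAbs + (S.p j).natAbs * (S.L i x y).natAbs := by
          rw [Int.natAbs_mul, Int.natAbs_mul]
      _ ≤ S.A0 * (S.L j x y).natAbs + S.A0 * (S.L i x y).natAbs := by
          gcongr <;> omega
      _ = _ := by ring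

theorem plucker (S : Forms D) (i j k : Fin D) (x y : ℤ) :
    S.det j k * S.L i x y + S.det k i * S.L j x y + S.det i j * S.L k x y = 0 := by
  unfold Forms.det Forms.L; ring

/-- the members of the family are nonzero, hence so are the linear forms -/
theorem L_ne_zero {S : Forms D} {d : ℕ} (h : S.IsIdentity d) {x y : ℤ} {a b c : ℕ} (ha : 0 < a)
    (hb : 0 < b) (hc : 0 < c) (hm : S.Member x y a b c) (i : Fin D) : S.L i x y ≠ 0 := by
  obtain ⟨g, σ, hg, h0, h1, h2⟩ := hm
  have hF : S.F (S.s i) x y ≠ 0 := by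
    obtain ⟨l, hl⟩ := σ.surjective (S.s i)
    rw [← hl, ← Int.natAbs_ne_zero]
    fin_cases l
    · change (S.F (σ 0) x y).natAbs ≠ 0
      rw [h0]; positivity
    · change (S.F (σ 1) x y).natAbs ≠ 0
      rw [h1]; positivity
    · change (S.F (σ 2) x y).natAbs ≠ 0
      rw [h2]; positivity
  intro hL
  apply hF
  unfold Forms.F
  have e : ∏ i' ∈ univ.filter (fun i' => S.s i' = S.s i), S.L i' x y ^ S.e i' = 0 :=
    prod_eq_zero (mem_filter.2 ⟨mem_univ i, rfl⟩)
      (by rw [hL, zero_pow (by have := h.one_le i; omega)])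
  rw [e, mul_zero]

theorem c_le {S : Forms D} {d : ℕ} (h : S.IsIdentity d) {x y : ℤ} {a b c : ℕ}
    (hm : S.Member x y a b c) : c ≤ S.bad * (S.A0 * max x.natAbs y.natAbs) ^ d := by
  obtain ⟨g, σ, hg, h0, h1, h2⟩ := hm
  calc c ≤ g * c := Nat.le_mul_of_pos_left _ hg
    _ = (S.F (σ 2) x y).natAbs := h2.symm
    _ ≤ _ := F_le h _ (le_max_left _ _) (le_max_right _ _)

/-- the abc-triple of three of the linear forms -/
theorem linear_triple {S : Forms D} {d : ℕ} (h : S.IsIdentity d) {x y : ℤ} (hxy : IsCoprime x y)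
    {i j k : Fin D} (hij : i ≠ j) (hjk : j ≠ k) (hik : i ≠ k) (hL : ∀ i, S.L i x y ≠ 0) :
    ∃ (t : ℕ × ℕ × ℕ) (m : ℕ) (s₁ s₂ : Fin 3 × Bool), m ≤ S.bad ^ 3 ∧
      0 < t.1 ∧ 0 < t.2.1 ∧ Nat.Coprime t.1 t.2.1 ∧ t.1 + t.2.1 = t.2.2 ∧
      S.det j k * S.L i x y = m * val s₁ t ∧ S.det k i * S.L j x y = m * val s₂ t ∧
      rad (t.1 * t.2.1 * t.2.2) ≤ S.bad ^ 3 *
        (rad (S.L i x y).natAbs * rad (S.L j x y).natAbs * rad (S.L k x y).natAbs) ∧
      max x.natAbs y.natAbs ≤ 2 * S.A0 * S.bad ^ 3 * t.2.2 ∧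
      t.2.2 ≤ 2 * S.bad * S.A0 * max x.natAbs y.natAbs := by
  have dij : S.det i j ≠ 0 := h.indep i j hij
  have djk : S.det j k ≠ 0 := h.indep j k hjk
  have dki : S.det k i ≠ 0 := h.indep k i hik.symm
  obtain ⟨t, m, s₁, s₂, hm0, hmA, hmB, ht1, ht2, hco, hsum, hA, hB, hdvd, hA1, hB1, hw⟩ :=
    exists_triple (mul_ne_zero djk (hL i)) (mul_ne_zero dki (hL j)) (mul_ne_zero dij (hL k))
      (plucker S i j k x y)
  have hbad := bad_ne_zero h
  have hm : m ≤ S.bad ^ 3 := by
    have h1 : (m : ℤ) ∣ S.det j k * S.det k i * S.det i j := by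
      refine dvd_of_mul hxy ?_ ?_
      · have e : S.det j k * S.det k i * S.det i j * x = (S.q j * S.det k i) *
            (S.det j k * S.L i x y) - (S.q i * S.det j k) * (S.det k i * S.L j x y) := by
          linear_combination (S.det j k * S.det k i) * det_x S i j x y
        rw [e]
        exact dvd_sub (Dvd.dvd.mul_left hmA _) (Dvd.dvd.mul_left hmB _)
      · have e : S.det j k * S.det k i * S.det i j * y = (S.p i * S.det j k) *
            (S.det k i * S.L j x y) - (S.p j * S.det k i) * (S.det j k * S.L i x y) := by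
          linear_combination (S.det j k * S.det k i) * det_y S i j x y
        rw [e]
        exact dvd_sub (Dvd.dvd.mul_left hmB _) (Dvd.dvd.mul_left hmA _)
    have h2 := Nat.le_of_dvd (Int.natAbs_pos.2 (mul_ne_zero (mul_ne_zero djk dki) dij))
      (Int.natCast_dvd.1 h1)
    rw [Int.natAbs_mul, Int.natAbs_mul] at h2
    calc m ≤ (S.det j k).natAbs * (S.det k i).natAbs * (S.det i j).natAbs := h2
      _ ≤ S.bad * S.bad * S.bad :=
          Nat.mul_le_mul (Nat.mul_le_mul (det_le h hjk) (det_le h hik.symm)) (det_le h hij)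
      _ = S.bad ^ 3 := by ring
  have nA : (S.det j k * S.L i x y).natAbs = (S.det j k).natAbs * (S.L i x y).natAbs :=
    Int.natAbs_mul _ _
  have nB : (S.det k i * S.L j x y).natAbs = (S.det k i).natAbs * (S.L j x y).natAbs :=
    Int.natAbs_mul _ _
  have nC : (S.det i j * S.L k x y).natAbs = (S.det i j).natAbs * (S.L k x y).natAbs :=
    Int.natAbs_mul _ _
  have pjk : 1 ≤ (S.det j k).natAbs := Int.natAbs_pos.2 djk
  have pki : 1 ≤ (S.det k i).natAbs := Int.natAbs_pos.2 dki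
  refine ⟨t, m, s₁, s₂, hm, ht1, ht2, hco, hsum, hA, hB, ?_, ?_, ?_⟩
  · have hne : (S.det j k * S.L i x y).natAbs * (S.det k i * S.L j x y).natAbs *
        (S.det i j * S.L k x y).natAbs ≠ 0 := by
      refine mul_ne_zero (mul_ne_zero ?_ ?_) ?_
      · exact Int.natAbs_ne_zero.2 (mul_ne_zero djk (hL i))
      · exact Int.natAbs_ne_zero.2 (mul_ne_zero dki (hL j))
      · exact Int.natAbs_ne_zero.2 (mul_ne_zero dij (hL k))
    have h1 := rad_dvd_le hdvd hne
    have rr : ∀ {a b : Fin D}, a ≠ b → rad (S.det a b).natAbs ≤ S.bad := fun {a b} hab =>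
      (rad_le (Int.natAbs_ne_zero.2 (h.indep a b hab))).trans (det_le h hab)
    rw [nA, nB, nC] at h1
    calc rad (t.1 * t.2.1 * t.2.2) ≤ _ := h1
      _ ≤ rad ((S.det j k).natAbs * (S.L i x y).natAbs * ((S.det k i).natAbs * (S.L j x y).natAbs)) *
          rad ((S.det i j).natAbs * (S.L k x y).natAbs) := rad_mul_le _ _
      _ ≤ (rad ((S.det j k).natAbs * (S.L i x y).natAbs) *
          rad ((S.det k i).natAbs * (S.L j x y).natAbs)) *
          rad ((S.det i j).natAbs * (S.L k x y).natAbs) :=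
          Nat.mul_le_mul_right _ (rad_mul_le _ _)
      _ ≤ ((rad (S.det j k).natAbs * rad (S.L i x y).natAbs) *
          (rad (S.det k i).natAbs * rad (S.L j x y).natAbs)) *
          (rad (S.det i j).natAbs * rad (S.L k x y).natAbs) :=
          Nat.mul_le_mul (Nat.mul_le_mul (rad_mul_le _ _) (rad_mul_le _ _)) (rad_mul_le _ _)
      _ ≤ ((S.bad * rad (S.L i x y).natAbs) * (S.bad * rad (S.L j x y).natAbs)) *
          (S.bad * rad (S.L k x y).natAbs) :=
          Nat.mul_le_mul (Nat.mul_le_mul (Nat.mul_le_mul_right _ (rr hjk))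
            (Nat.mul_le_mul_right _ (rr hik.symm))) (Nat.mul_le_mul_right _ (rr hij))
      _ = _ := by ring
  · have h1 := M_le h hij x y
    have h2 : (S.L i x y).natAbs ≤ t.2.2 * m := by
      refine le_trans ?_ hA1
      rw [nA]; exact Nat.le_mul_of_pos_left _ pjk
    have h3 : (S.L j x y).natAbs ≤ t.2.2 * m := by
      refine le_trans ?_ hB1
      rw [nB]; exact Nat.le_mul_of_pos_left _ pki
    calc max x.natAbs y.natAbs ≤ S.A0 * ((S.L i x y).natAbs + (S.L j x y).natAbs) := h1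
      _ ≤ S.A0 * (t.2.2 * m + t.2.2 * m) := Nat.mul_le_mul_left _ (Nat.add_le_add h2 h3)
      _ = 2 * S.A0 * m * t.2.2 := by ring
      _ ≤ 2 * S.A0 * S.bad ^ 3 * t.2.2 := by gcongr
  · have h2 := L_le S i (x := x) (y := y) (le_max_left _ _) (le_max_right _ _)
    have h3 := L_le S j (x := x) (y := y) (le_max_left _ _) (le_max_right _ _)
    calc t.2.2 ≤ (S.det j k).natAbs * (S.L i x y).natAbs +
          (S.det k i).natAbs * (S.L j x y).natAbs := by rw [← nA, ← nB]; exact hw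
      _ ≤ S.bad * (S.A0 * max x.natAbs y.natAbs) + S.bad * (S.A0 * max x.natAbs y.natAbs) :=
          Nat.add_le_add (Nat.mul_le_mul (det_le h hjk) h2) (Nat.mul_le_mul (det_le h hik.symm) h3)
      _ = _ := by ring

end Pool.Agent.NH51.BF
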